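import Pool.Agent.H87.CT.Good

set_option autoImplicit false

/-!
# Bases and amalgams
-/

namespace Pool.Agent.H87.CT

open FirstOrder FirstOrder.Language Cardinal

variable {L : FirstOrder.Language.{0, 0}} {F : Set (C2 L)} {M : Type} [L.Structure M]

/-- the bases -/
structure Base (F : Set (C2 L)) (B : Set M) : Prop where
  good : Good F B
  card : #B ≤ 2 ^ (ℵ₀ : Cardinal.{0})
  big : ∀ x ∉ B, 2 ^ (ℵ₀ : Cardinal.{0}) < #{z : M | ty F M z z = ty F M x x}
  many : ∀ x ∉ B, ℵ₀ < #{z : M | z ∈ B ∧ ty F M z z = ty F M x x}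

theorem exists_Base (hF : Fg F) (X : Set M) (hX : #X ≤ 2 ^ (ℵ₀ : Cardinal.{0}))
    (hM : 2 ^ (ℵ₀ : Cardinal.{0}) < #M) : ∃ B : Set M, X ⊆ B ∧ Base F B := by
  classical
  have hc : (ℵ₀ : Cardinal.{0}) < 2 ^ (ℵ₀ : Cardinal.{0}) := Cardinal.cantor ℵ₀
  have hFc : Countable F := hF.cnt
  let K : Set F → Set M := fun p => {x | ty F M x x = p}
  have hY : ∀ p, ∃ Y : Set M, Y ⊆ K p ∧ #Y ≤ 2 ^ (ℵ₀ : Cardinal.{0}) ∧
      (#(K p) ≤ 2 ^ (ℵ₀ : Cardinal.{0}) → Y = K p) ∧
      (2 ^ (ℵ₀ : Cardinal.{0}) < #(K p) → ℵ₀ < #Y) := by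
    intro p
    by_cases h : #(K p) ≤ 2 ^ (ℵ₀ : Cardinal.{0})
    · exact ⟨K p, subset_rfl, h, fun _ => rfl, fun h' => absurd h (not_le.2 h')⟩
    · push Not at h
      obtain ⟨Y, hY1, hY2⟩ := Cardinal.le_mk_iff_exists_subset.1 h.le
      exact ⟨Y, hY1, hY2.le, fun h' => absurd h' (not_le.2 h), fun _ => by rw [hY2]; exact hc⟩
  choose Y hY1 hY2 hY3 hY4 using hY
  have hU : #(X ∪ ⋃ p, Y p : Set M) ≤ 2 ^ (ℵ₀ : Cardinal.{0}) := by
    have h1 : #(⋃ p, Y p : Set M) ≤ 2 ^ (ℵ₀ : Cardinal.{0}) := by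
      refine (Cardinal.mk_iUnion_le _).trans ?_
      calc #(Set F) * ⨆ p, #(Y p) ≤ 2 ^ (ℵ₀ : Cardinal.{0}) * 2 ^ (ℵ₀ : Cardinal.{0}) := by
            refine mul_le_mul' ?_ (ciSup_le' hY2)
            rw [Cardinal.mk_set]
            exact Cardinal.power_le_power_left two_ne_zero Cardinal.mk_le_aleph0
        _ = 2 ^ (ℵ₀ : Cardinal.{0}) := Cardinal.mul_eq_self hc.le
    exact (Cardinal.mk_union_le _ _).trans ((add_le_add hX h1).trans
      (Cardinal.add_eq_self hc.le).le)
  obtain ⟨B, hB1, hB2, hB3⟩ := exists_good hF.cnt ⟨_, hF.eq⟩ (X ∪ ⋃ p, Y p) _ hc.le hU hM.le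
  have hYB : ∀ p, Y p ⊆ B := fun p x hx => hB1 (Or.inr (Set.mem_iUnion.2 ⟨p, hx⟩))
  have hbig : ∀ x ∉ B, 2 ^ (ℵ₀ : Cardinal.{0}) < #(K (ty F M x x)) := by
    intro x hx
    by_contra hcon
    push Not at hcon
    apply hx
    apply hYB (ty F M x x)
    rw [hY3 _ hcon]
    rfl
  refine ⟨B, Set.subset_union_left.trans hB1, hB2, hB3.le, hbig, fun x hx => ?_⟩
  refine (hY4 _ (hbig x hx)).trans_le (Cardinal.mk_le_mk_of_subset fun z hz => ?_)
  exact ⟨hYB _ hz, hY1 _ hz⟩

/-! ## Amalgams -/

section am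

/-- the amalgam of the sets `B ∪ P i` -/
inductive Am (B : Set M) {X : Type} (P : X → Set M) (g : M → M → M × M) : Type
  | l (m : B) : Am B P g
  | r (i : X) (e : P i) : Am B P g

/-- the amalgam is a sum -/
def amEquiv (B : Set M) {X : Type} (P : X → Set M) (g : M → M → M × M) :
    Am B P g ≃ B ⊕ (Σ i : X, P i) where
  toFun
    | .l m => Sum.inl m
    | .r i e => Sum.inr ⟨i, e⟩
  invFun
    | Sum.inl m => .l m
    | Sum.inr p => .r p.1 p.2
  left_inv a := by cases a <;> rfl
  right_inv a := by rcases a with _ | ⟨_, _⟩ <;> rfl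

variable {B : Set M} {X : Type} [LinearOrder X] {P : X → Set M} {g : M → M → M × M}

omit [LinearOrder X] in
theorem am_le : #(Am B P g) ≤ #B + Cardinal.sum fun i => #(P i) := by
  rw [Cardinal.mk_congr (amEquiv B P g), Cardinal.mk_sum, Cardinal.mk_sigma, Cardinal.lift_id,
    Cardinal.lift_id]

/-- the element of `M` -/
def rho : Am B P g → M
  | .l m => m.1
  | .r _ e => e.1

open Classical in
/-- the pair of elements of `M` -/
noncomputable def rr : Am B P g → Am B P g → M × M
  | .l m, .l m' => (m.1, m'.1)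
  | .l m, .r _ e => (m.1, e.1)
  | .r _ e, .l m => (e.1, m.1)
  | .r i e, .r j e' => if i = j then (e.1, e'.1) else
      if i < j then g e.1 e'.1 else (g e'.1 e.1).swap

theorem rr_rr (i : X) (e e' : P i) : rr (.r i e : Am B P g) (.r i e') = (e.1, e'.1) := by
  simp only [rr, if_true]

theorem rr_lt {i j : X} (h : i < j) (e : P i) (e' : P j) :
    rr (.r i e : Am B P g) (.r j e') = g e.1 e'.1 := by
  simp only [rr]
  rw [if_neg h.ne, if_pos h]

theorem rr_gt {i j : X} (h : j < i) (e : P i) (e' : P j) :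
    rr (.r i e : Am B P g) (.r j e') = (g e'.1 e.1).swap := by
  simp only [rr]
  rw [if_neg h.ne', if_neg (not_lt.2 h.le)]

theorem rr_swap (a b : Am B P g) : rr b a = (rr a b).swap := by
  rcases a with m | ⟨i, e⟩ <;> rcases b with m' | ⟨j, e'⟩
  · rfl
  · rfl
  · rfl
  · rcases lt_trichotomy i j with h | h | h
    · rw [rr_lt h, rr_gt h]
    · subst h
      rw [rr_rr, rr_rr]
      rfl
    · rw [rr_gt h, rr_lt h]
      rfl

theorem rr_self (a : Am B P g) : rr a a = (rho a, rho a) := by
  rcases a with m | ⟨i, e⟩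
  · rfl
  · rw [rr_rr]
    rfl

noncomputable instance [L.IsRelational] : L.Structure (Am B P g) where
  funMap f _ := isEmptyElim f
  RelMap {k} R t := match k, R, t with
    | 0, R, _ => Structure.RelMap R (Fin.elim0 : Fin 0 → M)
    | 1, R, t => Structure.RelMap R fun _ => rho (t 0)
    | 2, R, t => Structure.RelMap R fun i => cond (decide (i = 1)) (rr (t 0) (t 1)).2
        (rr (t 0) (t 1)).1
    | _ + 3, _, _ => False

/-- the conditions on amalgams -/
structure AmOk (F : Set (C2 L)) (B : Set M) {X : Type} (P : X → Set M) (g : M → M → M × M) :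
    Prop where
  base : Good F B
  pet : ∀ i, Good F (B ∪ P i)
  dis : ∀ i, ∀ e ∈ P i, e ∉ B
  g1 : ∀ e e', e ∉ B → e' ∉ B → ty F M (g e e').1 (g e e').1 = ty F M e e
  g2 : ∀ e e', e ∉ B → e' ∉ B → ty F M (g e e').2 (g e e').2 = ty F M e' e'
  un : ∀ e e', e ∉ B → e' ∉ B → Un F (g e e').1 (g e e').2

/-- counting in the amalgam -/
theorem am_count_aux {a : Am B P g} {D : Set M} (hD : Good F D) (ha : rho a ∈ D)
    (φ : M → Am B P g) (hφ : Set.InjOn φ D) (h1 : ∀ y ∈ D, rr a (φ y) = (rho a, y))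
    (h2 : ∀ b, b ∉ φ '' D → ∀ χ ∈ F, Sat2 M χ (rr a b).1 (rr a b).2 →
      {y | Sat2 M χ (rho a) y}.Infinite) {χ : C2 L} (hχ : χ ∈ F) :
    {b | Sat2 M χ (rr a b).1 (rr a b).2}.encard = {y | Sat2 M χ (rho a) y}.encard := by
  have hsub : φ '' {y | y ∈ D ∧ Sat2 M χ (rho a) y} ⊆ {b | Sat2 M χ (rr a b).1 (rr a b).2} := by
    rintro _ ⟨y, ⟨hy, hy'⟩, rfl⟩
    change Sat2 M χ (rr a (φ y)).1 (rr a (φ y)).2
    rw [h1 y hy]
    exact hy'
  have hinj : Set.InjOn φ {y | y ∈ D ∧ Sat2 M χ (rho a) y} := hφ.mono fun y hy => hy.1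
  by_cases hf : {y | Sat2 M χ (rho a) y}.Finite
  · have heq : {b | Sat2 M χ (rr a b).1 (rr a b).2} = φ '' {y | y ∈ D ∧ Sat2 M χ (rho a) y} := by
      refine Set.Subset.antisymm (fun b hb => ?_) hsub
      by_cases hbD : b ∈ φ '' D
      · obtain ⟨y, hy, rfl⟩ := hbD
        refine ⟨y, ⟨hy, ?_⟩, rfl⟩
        change Sat2 M χ (rr a (φ y)).1 (rr a (φ y)).2 at hb
        rw [h1 y hy] at hb
        exact hb
      · exact absurd hf (h2 b hbD χ hχ hb)
    rw [heq, hinj.encard_image, hD _ ha χ hχ]
  · rw [Set.encard_eq_top_iff.2 hf, Set.encard_eq_top_iff]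
    exact ((hD.inf ha hχ hf).image hinj).mono hsub

variable (hok : AmOk F B P g)

include hok

theorem rr_fst (a b : Am B P g) :
    ty F M (rr a b).1 (rr a b).1 = ty F M (rho a) (rho a) := by
  rcases a with m | ⟨i, e⟩ <;> rcases b with m' | ⟨j, e'⟩
  · rfl
  · rfl
  · rfl
  · have hp := hok.dis _ _ e.2
    have hq := hok.dis _ _ e'.2
    rcases lt_trichotomy i j with h | h | h
    · rw [rr_lt h]
      exact hok.g1 _ _ hp hq
    · subst h
      rw [rr_rr]
      rfl
    · rw [rr_gt h]
      exact hok.g2 _ _ hq hp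

theorem rr_snd (a b : Am B P g) :
    ty F M (rr a b).2 (rr a b).2 = ty F M (rho b) (rho b) := by
  have h := rr_fst hok b a
  rw [rr_swap a b] at h
  exact h

/-- pairs in different petals -/
theorem rr_un {i j : X} (h : i ≠ j) (e : P i) (e' : P j) :
    Un F (rr (.r i e : Am B P g) (.r j e')).1 (rr (.r i e : Am B P g) (.r j e')).2 := by
  have hp := hok.dis _ _ e.2
  have hq := hok.dis _ _ e'.2
  rcases lt_or_gt_of_ne h with h1 | h1
  · rw [rr_lt h1]
    exact hok.un _ _ hp hq
  · rw [rr_gt h1]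
    exact (hok.un _ _ hq hp).symm

theorem rr_ne (hF : Fg F) (a b : Am B P g) : a = b ↔ (rr a b).1 = (rr a b).2 := by
  constructor
  · rintro rfl
    rw [rr_self]
  · intro h
    rcases a with m | ⟨i, e⟩ <;> rcases b with m' | ⟨j, e'⟩
    · exact congrArg Am.l (Subtype.ext h)
    · have h' : m.1 = e'.1 := h
      exact absurd (h' ▸ m.2) (hok.dis _ _ e'.2)
    · have h' : e.1 = m'.1 := h
      exact absurd (h'.symm ▸ m'.2) (hok.dis _ _ e.2)
    · by_cases h1 : i = j
      · subst h1
        rw [rr_rr] at h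
        have h2 : e = e' := Subtype.ext h
        rw [h2]
      · exact absurd h ((rr_un hok h1 e e').1.ne hF)

theorem am_count (hF : Fg F) (a : Am B P g) {χ : C2 L} (hχ : χ ∈ F) :
    {b | Sat2 M χ (rr a b).1 (rr a b).2}.encard = {y | Sat2 M χ (rho a) y}.encard := by
  classical
  rcases a with m | ⟨i, e⟩
  · refine am_count_aux (a := (.l m : Am B P g)) hok.base m.2 (fun y => if h : y ∈ B then
      .l ⟨y, h⟩ else .l m) ?_ ?_ ?_ hχ
    · intro y hy z hz hyz
      simp only [dif_pos hy, dif_pos hz] at hyz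
      exact congrArg Subtype.val (Am.l.inj hyz)
    · intro y hy
      simp only [dif_pos hy]
      rfl
    · intro b hb ξ hξ hs
      rcases b with m' | ⟨j, e'⟩
      · exfalso
        apply hb
        refine ⟨m'.1, m'.2, ?_⟩
        simp only [dif_pos m'.2]
      · exact hok.base.fr m.2 (hok.dis _ _ e'.2) ξ hξ hs
  · refine am_count_aux (a := (.r i e : Am B P g)) (hok.pet i) (Or.inr e.2) (fun y =>
      if h : y ∈ B then .l ⟨y, h⟩ else if h' : y ∈ P i then .r i ⟨y, h'⟩ else .r i e) ?_ ?_ ?_ hχ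
    · intro y hy z hz hyz
      by_cases h1 : y ∈ B <;> by_cases h2 : z ∈ B
      · simp only [dif_pos h1, dif_pos h2] at hyz
        exact congrArg Subtype.val (Am.l.inj hyz)
      · simp only [dif_pos h1, dif_neg h2, dif_pos (hz.resolve_left h2)] at hyz
        exact absurd hyz (by simp)
      · simp only [dif_pos h2, dif_neg h1, dif_pos (hy.resolve_left h1)] at hyz
        exact absurd hyz (by simp)
      · simp only [dif_neg h1, dif_neg h2, dif_pos (hy.resolve_left h1),
          dif_pos (hz.resolve_left h2)] at hyz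
        have h3 := Am.r.inj hyz
        exact congrArg Subtype.val (eq_of_heq h3.2)
    · intro y hy
      by_cases h1 : y ∈ B
      · simp only [dif_pos h1]
        rfl
      · simp only [dif_neg h1, dif_pos (hy.resolve_left h1), rr_rr]
        rfl
    · intro b hb ξ hξ hs
      rcases b with m' | ⟨j, e'⟩
      · exfalso
        apply hb
        refine ⟨m'.1, Or.inl m'.2, ?_⟩
        simp only [dif_pos m'.2]
      · by_cases hq : i = j
        · exfalso
          apply hb
          subst hq
          refine ⟨e'.1, Or.inr e'.2, ?_⟩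
          simp only [dif_neg (hok.dis _ _ e'.2), dif_pos e'.2]
        · have h1 := (rr_un hok hq e e').1 ξ hξ hs
          have h2 := encard_eq hF (rr_fst hok (.r i e : Am B P g) (.r j e')) hξ
          rw [← Set.encard_eq_top_iff, ← h2]
          exact Set.encard_eq_top_iff.2 h1

theorem am_ty (hF : Fg F) [L.IsRelational] (hL : ∀ k, Nonempty (L.Relations k) → k ≤ 2)
    (a b : Am B P g) : ty F (Am B P g) a b = ty F M (rr a b).1 (rr a b).2 := by
  refine ty_iff.2 fun χ hχ => rl hF rho rr ?_ (rr_ne hok hF) (fun a b => ?_) (rr_fst hok)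
    (fun a χ hχ => am_count hok hF a hχ) χ hχ a b
  · intro a b k R u
    have hk := hL k ⟨R⟩
    match k, hk, R, u with
    | 0, _, R, u =>
      have h : (fun i : Fin 0 => cond (u i) (rr a b).2 (rr a b).1) = Fin.elim0 :=
        funext fun i => i.elim0
      change Structure.RelMap R (Fin.elim0 : Fin 0 → M) ↔ Structure.RelMap R _
      rw [h]
    | 1, _, R, u =>
      change Structure.RelMap R (fun _ => rho (cond (u 0) b a)) ↔ Structure.RelMap R _
      cases hu : u 0 with
      | false =>
        have h1 := ty_iff.1 (rr_fst hok a b) (.rel R u) (hF.rel R u)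
        have e1 : (fun i => cond (u i) (rr a b).2 (rr a b).1) = fun _ => (rr a b).1 :=
          funext fun i => by rw [Subsingleton.elim i 0, hu]; rfl
        have e2 : (fun i => cond (u i) (rr a b).1 (rr a b).1) = fun _ => (rr a b).1 :=
          funext fun i => by cases u i <;> rfl
        have e3 : (fun i => cond (u i) (rho a) (rho a)) = fun _ => rho a :=
          funext fun i => by cases u i <;> rfl
        change Structure.RelMap R (fun i => cond (u i) (rr a b).1 (rr a b).1) ↔
          Structure.RelMap R (fun i => cond (u i) (rho a) (rho a)) at h1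
        rw [e2, e3] at h1
        rw [e1]
        exact h1.symm
      | true =>
        have h1 := ty_iff.1 (rr_snd hok a b) (.rel R u) (hF.rel R u)
        have e1 : (fun i => cond (u i) (rr a b).2 (rr a b).1) = fun _ => (rr a b).2 :=
          funext fun i => by rw [Subsingleton.elim i 0, hu]; rfl
        have e2 : (fun i => cond (u i) (rr a b).2 (rr a b).2) = fun _ => (rr a b).2 :=
          funext fun i => by cases u i <;> rfl
        have e3 : (fun i => cond (u i) (rho b) (rho b)) = fun _ => rho b :=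
          funext fun i => by cases u i <;> rfl
        change Structure.RelMap R (fun i => cond (u i) (rr a b).2 (rr a b).2) ↔
          Structure.RelMap R (fun i => cond (u i) (rho b) (rho b)) at h1
        rw [e2, e3] at h1
        rw [e1]
        exact h1.symm
    | 2, _, R, u =>
      let u0 : Fin 2 → Bool := fun i => decide (i = 1)
      change Structure.RelMap R (fun i => cond (u0 i) (rr (cond (u 0) b a) (cond (u 1) b a)).2
        (rr (cond (u 0) b a) (cond (u 1) b a)).1) ↔ Structure.RelMap R _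
      have hfun : ∀ (x y : M), (fun i => cond (u i) y x) =
          fun i => cond (u0 i) (cond (u 1) y x) (cond (u 0) y x) := by
        intro x y
        funext i
        match i with
        | 0 => rfl
        | 1 => rfl
      have hsame : ∀ c : Am B P g, Structure.RelMap R (fun i => cond (u0 i) (rr c c).2 (rr c c).1) ↔
          Sat2 M (.rel R u) (rho c) (rho c) := by
        intro c
        rw [rr_self]
        have e : (fun i => cond (u0 i) ((rho c, rho c) : M × M).2 ((rho c, rho c) : M × M).1) =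
            fun i => cond (u i) (rho c) (rho c) := by
          funext i
          cases u0 i <;> cases u i <;> rfl
        rw [e]
        rfl
      cases h0 : u 0 <;> cases h1 : u 1
      · refine (hsame a).trans ?_
        refine (ty_iff.1 (rr_fst hok a b) (.rel R u) (hF.rel R u)).symm.trans ?_
        change Structure.RelMap R _ ↔ _
        rw [hfun, hfun, h0, h1]
        exact Iff.rfl
      · rw [hfun, h0, h1]
        exact Iff.rfl
      · change Structure.RelMap R (fun i => cond (u0 i) (rr b a).2 (rr b a).1) ↔ _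
        rw [rr_swap a b, hfun, h0, h1]
        exact Iff.rfl
      · refine (hsame b).trans ?_
        refine (ty_iff.1 (rr_snd hok a b) (.rel R u) (hF.rel R u)).symm.trans ?_
        change Structure.RelMap R _ ↔ _
        rw [hfun, hfun, h0, h1]
        exact Iff.rfl
    | k + 3, hk, _, _ => omega
  · rw [rr_swap a b]
    rfl

end am

end Pool.Agent.H87.CT
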