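import Pool.Agent.H87.CT.Rep

set_option autoImplicit false

/-!
# The transfer theorem for formulas with two variables
-/

namespace Pool.Agent.H87.CT

open FirstOrder FirstOrder.Language Cardinal

variable {L : FirstOrder.Language.{0, 0}} {F : Set (C2 L)}

theorem exists_bij {J I I' : Type} {κ : Cardinal.{0}} (hκ : ℵ₀ ≤ κ) (hJ : #J ≤ κ) (hI : #I = κ)
    (hI' : #I' = κ) : ∃ (u : J → I') (v : I → I'), Function.Bijective (Sum.elim u v) := by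
  obtain ⟨w⟩ : Nonempty (J ⊕ I ≃ I') := by
    rw [← Cardinal.eq, Cardinal.mk_sum, Cardinal.lift_id, Cardinal.lift_id, hI, hI']
    exact Cardinal.add_eq_right hκ hJ
  refine ⟨w ∘ Sum.inl, w ∘ Sum.inr, ?_⟩
  rw [Sum.elim_comp_inl_inr]
  exact w.bijective

section cmp

variable (hF : Fg F) [L.IsRelational] (hL : ∀ k, Nonempty (L.Relations k) → k ≤ 2) {φ : C2 L}
  (hφ : φ ∈ F) {μ : Cardinal.{0}} (hμ : 2 ^ (ℵ₀ : Cardinal.{0}) < μ) (hcat : Cat2 φ μ)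

include hF hL hφ hμ hcat

theorem transfer2 {μ' : Cardinal.{0}} (hμ' : 2 ^ (ℵ₀ : Cardinal.{0}) < μ') : Cat2 φ μ' := by
  classical
  intro M N _ _ hM hN hMφ hNφ
  have hμ0 : ℵ₀ ≤ μ := (c_pos.trans hμ).le
  have hμ0' : ℵ₀ ≤ μ' := (c_pos.trans hμ').le
  have hMc : 2 ^ (ℵ₀ : Cardinal.{0}) < #M := by rw [hM]; exact hμ'
  have hNc : 2 ^ (ℵ₀ : Cardinal.{0}) < #N := by rw [hN]; exact hμ'
  have hMne : Nonempty M := by
    rw [← Cardinal.mk_ne_zero_iff, hM]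
    exact (Cardinal.aleph0_pos.trans_le hμ0').ne'
  obtain ⟨B₁, -, hB₁⟩ := exists_Base hF (∅ : Set M) (by simp) hMc
  obtain ⟨B₂, -, hB₂⟩ := exists_Base hF (∅ : Set N) (by simp) hNc
  obtain ⟨g₁, hg₁⟩ := exists_g hF.cnt hB₁
  obtain ⟨g₂, hg₂⟩ := exists_g hF.cnt hB₂
  obtain ⟨c₁, -, hc₁⟩ := Set.not_subset.1 fun h : (Set.univ : Set M) ⊆ B₁ =>
    (not_lt.2 (((Cardinal.mk_univ.ge).trans (Cardinal.mk_le_mk_of_subset h)).trans hB₁.card)) hMc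
  obtain ⟨c₂, -, hc₂⟩ := Set.not_subset.1 fun h : (Set.univ : Set N) ⊆ B₂ =>
    (not_lt.2 (((Cardinal.mk_univ.ge).trans (Cardinal.mk_le_mk_of_subset h)).trans hB₂.card)) hNc
  obtain ⟨I₁, _, hI₁, e₁, he₁⟩ := exists_rep hF hL hφ hμ hcat hMφ hMc hB₁ hg₁ hc₁
  obtain ⟨I₂, _, hI₂, e₂, he₂⟩ := exists_rep hF hL hφ hμ hcat hNφ hNc hB₂ hg₂ hc₂
  rw [hM] at hI₁
  rw [hN] at hI₂
  let X := μ.ord.ToType
  have hX : #X = μ := Cardinal.mk_ord_toType μ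
  have hXne : Nonempty X := by
    rw [← Cardinal.mk_ne_zero_iff, hX]
    exact (Cardinal.aleph0_pos.trans_le hμ0).ne'
  have hC₁ := cmp_card hF hL hφ hμ hcat hMφ hMc hB₁ c₁
  have hC₂ := cmp_card hF hL hφ hμ hcat hNφ hNc hB₂ c₂
  have hok₁ : ∀ (T : Type), AmOk F B₁ (fun _ : T => cmp F B₁ c₁) g₁ := fun T =>
    amOk hB₁.good hg₁ (fun i => cmp_good hF hL hφ hμ hcat hMφ hMc hB₁ hc₁)
      fun i e he => cmp_notMem hc₁ he
  have hok₂ : ∀ (T : Type), AmOk F B₂ (fun _ : T => cmp F B₂ c₂) g₂ := fun T =>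
    amOk hB₂.good hg₂ (fun i => cmp_good hF hL hφ hμ hcat hNφ hNc hB₂ hc₂)
      fun i e he => cmp_notMem hc₂ he
  obtain ⟨f⟩ := hcat (Am B₁ (fun _ : X => cmp F B₁ c₁) g₁) (Am B₂ (fun _ : X => cmp F B₂ c₂) g₂)
    (am_card hμ0 hX (hB₁.card.trans hμ.le) (fun i => hC₁.trans hμ.le) fun i => ⟨_, self_cmp _ _⟩)
    (am_card hμ0 hX (hB₂.card.trans hμ.le) (fun i => hC₂.trans hμ.le) fun i => ⟨_, self_cmp _ _⟩)
    (am_models hφ hF hL hMφ (hok₁ X)) (am_models hφ hF hL hNφ (hok₂ X))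
  obtain ⟨J, J', j, hJ, hJ', hj1, hj2, hj3, hj4⟩ := split c_pos.le
    (am_dec hF hL hφ hμ hcat hMφ hMc hB₁ (hok₁ X))
    (am_dec hF hL hφ hμ hcat hNφ hNc hB₂ (hok₂ X)) f.toEquiv
    fun a b => un_congr hF (ty_equiv f a b)
  -- two petals which are mapped to petals
  obtain ⟨i₀, -, hi₀⟩ := Set.not_subset.1 fun h : (Set.univ : Set X) ⊆ J =>
    (not_lt.2 (((Cardinal.mk_univ.ge).trans (Cardinal.mk_le_mk_of_subset h)).trans hJ))
      (hX ▸ hμ)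
  obtain ⟨i₁, -, hi₁⟩ := Set.not_subset.1 fun h : (Set.univ : Set X) ⊆ J ∪ {i₀} => by
    have h1 := (Cardinal.mk_univ.ge).trans ((Cardinal.mk_le_mk_of_subset h).trans
      (Cardinal.mk_union_le _ _))
    rw [hX, Cardinal.mk_singleton] at h1
    have h2 : #J + 1 ≤ 2 ^ (ℵ₀ : Cardinal.{0}) := (add_le_add hJ
      (Cardinal.one_lt_aleph0.le.trans c_pos.le)).trans (Cardinal.add_eq_self c_pos.le).le
    exact (h1.trans h2).not_gt hμ
  have hi₁J : i₁ ∉ J := fun h => hi₁ (Or.inl h)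
  have hi01 : i₀ ≠ i₁ := fun h => hi₁ (Or.inr h.symm)
  have hj01 : j i₀ ≠ j i₁ := by
    intro h
    have h1 := (hj3 i₀ hi₀ (.r i₀ ⟨c₁, self_cmp _ _⟩)).1 rfl
    rw [h] at h1
    exact hi01 (Option.some.inj ((hj3 i₁ hi₁J _).2 h1))
  have hγ : ∀ i, i ∉ J → ∀ c, ∃ c', f (.r i c) = .r (j i) c' := by
    intro i hi c
    have h1 : pi (f (.r i c)) = some (j i) := (hj3 i hi _).1 rfl
    cases h2 : f (.r i c) with
    | l m =>
      rw [h2] at h1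
      exact absurd h1 (by simp [pi])
    | r i2 c' =>
      rw [h2] at h1
      obtain rfl : i2 = j i := Option.some.inj h1
      exact ⟨c', rfl⟩
  choose γ₀ hγ₀ using hγ i₀ hi₀
  choose γ₁ hγ₁ using hγ i₁ hi₁J
  have hγb : Function.Bijective γ₀ := by
    constructor
    · intro c c' h
      have h1 : f (.r i₀ c) = f (.r i₀ c') := by rw [hγ₀, hγ₀, h]
      exact eq_of_heq (Am.r.inj (f.injective h1)).2
    · intro d
      have h1 : pi (f.symm (.r (j i₀) d)) = some i₀ := by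
        refine (hj3 i₀ hi₀ _).2 ?_
        change pi (f (f.symm _)) = _
        rw [f.apply_symm_apply]
        rfl
      cases h2 : f.symm (.r (j i₀) d) with
      | l m =>
        rw [h2] at h1
        exact absurd h1 (by simp [pi])
      | r i2 c =>
        rw [h2] at h1
        obtain rfl : i2 = i₀ := Option.some.inj h1
        refine ⟨c, ?_⟩
        have h3 : f (.r i2 c) = .r (j i2) d := by rw [← h2, f.apply_symm_apply]
        exact eq_of_heq (Am.r.inj ((hγ₀ c).symm.trans h3)).2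
  let γ := Equiv.ofBijective γ₀ hγb
  obtain ⟨u₁, v₁, huv₁⟩ := exists_bij hμ0' (hJ.trans hμ'.le) hI₁ hI₁
  obtain ⟨u₂, v₂, huv₂⟩ := exists_bij hμ0' (hJ'.trans hμ'.le) hI₁ hI₂
  let E₁ := Equiv.ofBijective _ (iot_bij (B := B₁) (g := g₁) (C := cmp F B₁ c₁) (X := X) huv₁)
  let E₂ := Equiv.ofBijective _ (iot_bij (B := B₂) (g := g₂) (C := cmp F B₂ c₂) (X := X) huv₂)
  let fs : {a : Am B₁ (fun _ : X => cmp F B₁ c₁) g₁ // ∀ i, pi a = some i → i ∈ J} ≃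
      {a : Am B₂ (fun _ : X => cmp F B₂ c₂) g₂ // ∀ i, pi a = some i → i ∈ J'} :=
    f.toEquiv.subtypeEquiv hj4
  let G := Equiv.sumCongr fs (Equiv.prodCongr (Equiv.refl I₁) γ)
  obtain ⟨a1, a2, a3, a4⟩ := iot_ty hF hL hφ hμ hcat hMφ hMc hB₁ hg₁ huv₁ (hok₁ X) (hok₁ I₁)
    hi₀ hi01
  obtain ⟨b1, b2, b3, b4⟩ := iot_ty hF hL hφ hμ hcat hNφ hNc hB₂ hg₂ huv₂ (hok₂ X) (hok₂ I₂)
    (hj1 i₀ hi₀) hj01
  have hG : ∀ p q, ty F _ (E₂ (G p)) (E₂ (G q)) = ty F _ (E₁ p) (E₁ q) := by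
    rintro (a | ⟨y, c⟩) (b | ⟨y', c'⟩)
    · refine (b1 (fs a) (fs b)).trans ((ty_equiv f a.1 b.1).trans (a1 a b).symm)
    · refine (b2 (fs a) y' (γ₀ c')).trans (Eq.trans ?_ (a2 a y' c').symm)
      rw [← hγ₀]
      exact ty_equiv f a.1 (.r i₀ c')
    · refine ty_swap hF ((b2 (fs b) y (γ₀ c)).trans (Eq.trans ?_ (a2 b y c).symm))
      rw [← hγ₀]
      exact ty_equiv f b.1 (.r i₀ c)
    · by_cases hy : y = y'
      · subst hy
        refine (b3 y (γ₀ c) (γ₀ c')).trans (Eq.trans ?_ (a3 y c c').symm)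
        rw [← hγ₀, ← hγ₀]
        exact ty_equiv f (.r i₀ c) (.r i₀ c')
      · refine (b4 y y' (γ₀ c) (γ₀ c') hy).trans (Eq.trans ?_ (a4 y y' c c' hy).symm)
        have h1 := ty_equiv (F := F) f (.r i₀ c) (.r i₁ c')
        rw [← h1, hγ₀, hγ₁]
        rw [am_dft hF hL hφ hμ hcat hNφ hNc hB₂ hg₂ (hok₂ X) hj01,
          am_dft hF hL hφ hμ hcat hNφ hNc hB₂ hg₂ (hok₂ X) hj01]
        have hn1 := cmp_notMem hc₂ (γ₀ c).2
        have hn2 := cmp_notMem hc₂ (γ₀ c').2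
        have hn3 := cmp_notMem hc₂ (γ₁ c').2
        have h2 : ty F N (γ₁ c').1 (γ₁ c').1 = ty F N (γ₀ c').1 (γ₀ c').1 := by
          have h3 := ty_equiv (F := F) f (.r i₀ c') (.r i₀ c')
          have h4 := ty_equiv (F := F) f (.r i₁ c') (.r i₁ c')
          rw [hγ₀, am_rr hF hL (hok₂ X), am_rr hF hL (hok₁ X)] at h3
          rw [hγ₁, am_rr hF hL (hok₂ X), am_rr hF hL (hok₁ X)] at h4
          exact h4.trans h3.symm
        refine uniq hF hL hφ hμ hcat hNφ hNc ?_ ?_ ?_ ?_ (hg₂.un _ _ hn1 hn2) (hg₂.un _ _ hn1 hn3)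
        · exact (big_congr (hg₂.g1 _ _ hn1 hn2)).2 (hB₂.big _ hn1)
        · exact (big_congr (hg₂.g2 _ _ hn1 hn2)).2 (hB₂.big _ hn2)
        · exact (hg₂.g1 _ _ hn1 hn2).trans (hg₂.g1 _ _ hn1 hn3).symm
        · exact (hg₂.g2 _ _ hn1 hn2).trans (h2.symm.trans (hg₂.g2 _ _ hn1 hn3).symm)
  let E : M ≃ N := e₁.symm.trans (E₁.symm.trans (G.trans (E₂.trans e₂)))
  refine iso_of_ty hF hL E fun a b => ?_
  change ty F N (e₂ (E₂ (G (E₁.symm (e₁.symm a))))) (e₂ (E₂ (G (E₁.symm (e₁.symm b))))) = _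
  rw [he₂, hG, E₁.apply_symm_apply, E₁.apply_symm_apply, ← he₁, e₁.apply_symm_apply,
    e₁.apply_symm_apply]

omit hμ hcat in
theorem exists_model {M : Type} [L.Structure M] (hM : Models2 M φ)
    (hMc : 2 ^ (ℵ₀ : Cardinal.{0}) < #M) {μ' : Cardinal.{0}}
    (hμ' : 2 ^ (ℵ₀ : Cardinal.{0}) < μ') :
    ∃ (N : Type) (_ : L.Structure N), #N = μ' ∧ Models2 N φ := by
  classical
  have hμ0' : ℵ₀ ≤ μ' := (c_pos.trans hμ').le
  obtain ⟨B, -, hB⟩ := exists_Base hF (∅ : Set M) (by simp) hMc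
  obtain ⟨g, hg⟩ := exists_g hF.cnt hB
  obtain ⟨c, -, hc⟩ := Set.not_subset.1 fun h : (Set.univ : Set M) ⊆ B =>
    (not_lt.2 (((Cardinal.mk_univ.ge).trans (Cardinal.mk_le_mk_of_subset h)).trans hB.card)) hMc
  obtain ⟨D, hD1, hD2, hD3⟩ := exists_good hF.cnt ⟨_, hF.eq⟩ ({c} : Set M) ℵ₀ le_rfl
    (Cardinal.mk_le_aleph0) (c_pos.trans hMc).le
  have hok : AmOk F B (fun _ : μ'.ord.ToType => D \ B) g :=
    amOk hB.good hg (fun i => good_diff hB.good hD2) fun i e he => he.2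
  refine ⟨Am B (fun _ : μ'.ord.ToType => D \ B) g, inferInstance, ?_, am_models hφ hF hL hM hok⟩
  exact am_card hμ0' (Cardinal.mk_ord_toType μ') (hB.card.trans hμ'.le)
    (fun i => ((Cardinal.mk_le_mk_of_subset Set.sdiff_subset).trans hD3.le).trans hμ0')
    fun i => ⟨c, hD1 rfl, hc⟩

end cmp

end Pool.Agent.H87.CT
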