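import Pool.Agent.H87.CT.Dfl

set_option autoImplicit false

/-!
# The components outside of a base
-/

namespace Pool.Agent.H87.CT

open FirstOrder FirstOrder.Language Cardinal

variable {L : FirstOrder.Language.{0, 0}} {F : Set (C2 L)} {M : Type} [L.Structure M]

/-- `x` and `y` are linked outside of the base -/
def lnk (F : Set (C2 L)) (B : Set M) (x y : M) : Prop := x ∉ B ∧ y ∉ B ∧ ¬ Un F x y

/-- the component of `x` -/
def cmp (F : Set (C2 L)) (B : Set M) (x : M) : Set M :=
  {y | Relation.ReflTransGen (lnk F B) x y}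

theorem lnk_symm {B : Set M} {x y : M} (h : lnk F B x y) : lnk F B y x :=
  ⟨h.2.1, h.1, fun h' => h.2.2 h'.symm⟩

theorem self_cmp (B : Set M) (x : M) : x ∈ cmp F B x := Relation.ReflTransGen.refl

theorem cmp_notMem {B : Set M} {x y : M} (hx : x ∉ B) (h : y ∈ cmp F B x) : y ∉ B := by
  rcases Relation.ReflTransGen.cases_tail h with rfl | ⟨z, -, hz⟩
  · exact hx
  · exact hz.2.1

theorem cmp_symm {B : Set M} {x y : M} (h : y ∈ cmp F B x) : x ∈ cmp F B y := by
  have h' : Relation.ReflTransGen (lnk F B) x y := h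
  change Relation.ReflTransGen (lnk F B) y x
  induction h' with
  | refl => exact Relation.ReflTransGen.refl
  | tail hab hbc ih => exact Relation.ReflTransGen.head (lnk_symm hbc) (ih hab)

theorem cmp_trans {B : Set M} {x y z : M} (h : y ∈ cmp F B x) (h' : z ∈ cmp F B y) :
    z ∈ cmp F B x := Relation.ReflTransGen.trans h h'

theorem cmp_un {B : Set M} {x y z : M} (hx : x ∉ B) (h : y ∈ cmp F B x) (hz : z ∉ B)
    (hz' : z ∉ cmp F B x) : Un F y z := by
  by_contra hcon
  exact hz' (Relation.ReflTransGen.tail h ⟨cmp_notMem hx h, hz, hcon⟩)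

/-- the elements reached in `n` steps -/
def stp {α : Type} (r : α → α → Prop) (x : α) : ℕ → α → Prop
  | 0, z => z = x
  | n + 1, z => ∃ y, stp r x n y ∧ r y z

theorem closure_card {α : Type} (r : α → α → Prop) (κ : Cardinal.{0}) (h0 : ℵ₀ ≤ κ)
    (h : ∀ a, #{b | r a b} ≤ κ) (x : α) : #{y | Relation.ReflTransGen r x y} ≤ κ := by
  have h1 : ∀ n, #{z | stp r x n z} ≤ κ := by
    intro n
    induction n with
    | zero =>
      change #({x} : Set α) ≤ κ
      rw [Cardinal.mk_singleton]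
      exact Cardinal.one_lt_aleph0.le.trans h0
    | succ n ih =>
      have h3 : {z | stp r x (n + 1) z} ⊆ ⋃ y : {z | stp r x n z}, {z | r y.1 z} := by
        rintro z ⟨y, hy, hyz⟩
        exact Set.mem_iUnion.2 ⟨⟨y, hy⟩, hyz⟩
      refine (Cardinal.mk_le_mk_of_subset h3).trans ((Cardinal.mk_iUnion_le _).trans ?_)
      have h4 : (⨆ y : {z | stp r x n z}, #{z | r y.1 z}) ≤ κ := ciSup_le' fun y => h y.1
      exact (mul_le_mul' ih h4).trans (Cardinal.mul_eq_self h0).le
  have h2 : {y | Relation.ReflTransGen r x y} ⊆ ⋃ n, {z | stp r x n z} := by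
    intro y hy
    induction hy with
    | refl => exact Set.mem_iUnion.2 ⟨0, rfl⟩
    | tail _ hbc ih =>
      obtain ⟨n, hn⟩ := Set.mem_iUnion.1 ih
      exact Set.mem_iUnion.2 ⟨n + 1, _, hn, hbc⟩
  refine (Cardinal.mk_le_mk_of_subset h2).trans ((Cardinal.mk_iUnion_le _).trans ?_)
  have h4 : (⨆ n, #{z | stp r x n z}) ≤ κ := ciSup_le' h1
  exact (mul_le_mul' (Cardinal.mk_le_aleph0.trans h0) h4).trans (Cardinal.mul_eq_self h0).le

section comp

variable (hF : Fg F) [L.IsRelational] (hL : ∀ k, Nonempty (L.Relations k) → k ≤ 2) {φ : C2 L}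
  (hφ : φ ∈ F) {μ : Cardinal.{0}} (hμ : 2 ^ (ℵ₀ : Cardinal.{0}) < μ) (hcat : Cat2 φ μ)

include hF hL hφ hμ hcat

theorem rev_le (hM : Models2 M φ) (hMc : 2 ^ (ℵ₀ : Cardinal.{0}) < #M) {B : Set M}
    (hB : Base F B) {x : M} (hx : x ∉ B) : #{y : M | ¬ Fr F y x} ≤ 2 ^ (ℵ₀ : Cardinal.{0}) := by
  classical
  by_contra hcon
  push Not at hcon
  have hμ0 : ℵ₀ ≤ μ := (c_pos.trans hμ).le
  have hs0 : ℵ₀ ≤ Order.succ (2 ^ (ℵ₀ : Cardinal.{0})) := (c_pos.trans (Order.lt_succ _)).le
  obtain ⟨g, hg⟩ := exists_g hF.cnt hB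
  obtain ⟨Y, hY1, hY2⟩ := Cardinal.le_mk_iff_exists_subset.1 (Order.succ_le_of_lt hcon)
  obtain ⟨D, hD1, hD2, hD3⟩ := exists_good hF.cnt ⟨_, hF.eq⟩ (Y ∪ {x})
    (Order.succ (2 ^ (ℵ₀ : Cardinal.{0}))) hs0 (by
      refine (Cardinal.mk_union_le _ _).trans ?_
      rw [hY2, Cardinal.mk_singleton]
      exact (add_le_add le_rfl (Cardinal.one_lt_aleph0.le.trans hs0)).trans
        (Cardinal.add_eq_self hs0).le) (Order.succ_le_of_lt hMc)
  obtain ⟨D', hD1', hD2', hD3'⟩ := exists_good hF.cnt ⟨_, hF.eq⟩ ({x} : Set M) ℵ₀ le_rfl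
    (Cardinal.mk_le_aleph0) (c_pos.trans hMc).le
  have hxD : x ∈ D \ B := ⟨hD1 (Or.inr rfl), hx⟩
  have hxD' : x ∈ D' \ B := ⟨hD1' rfl, hx⟩
  let X := μ.ord.ToType
  have hX : #X = μ := Cardinal.mk_ord_toType μ
  let P : X → Set M := fun _ => D \ B
  let P' : X → Set M := fun _ => D' \ B
  have hok : AmOk F B P g := amOk hB.good hg (fun i => good_diff hB.good hD2) fun i e he => he.2
  have hok' : AmOk F B P' g :=
    amOk hB.good hg (fun i => good_diff hB.good hD2') fun i e he => he.2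
  have hc1 : #(Am B P g) = μ := am_card hμ0 hX (hB.card.trans hμ.le)
    (fun i => (Cardinal.mk_le_mk_of_subset Set.sdiff_subset).trans
      (hD3.le.trans (Order.succ_le_of_lt hμ))) fun i => ⟨x, hxD⟩
  have hc2 : #(Am B P' g) = μ := am_card hμ0 hX (hB.card.trans hμ.le)
    (fun i => (Cardinal.mk_le_mk_of_subset Set.sdiff_subset).trans
      (hD3'.le.trans hμ0)) fun i => ⟨x, hxD'⟩
  obtain ⟨f⟩ := hcat (Am B P g) (Am B P' g) hc1 hc2
    (am_models hφ hF hL hM hok) (am_models hφ hF hL hM hok')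
  -- many reverse links in the first structure
  have h1 : ∀ i : X, 2 ^ (ℵ₀ : Cardinal.{0}) <
      #{b : Am B P g | ¬ Fr F b (.r i ⟨x, hxD⟩)} := by
    intro i
    refine lt_of_lt_of_le (Order.lt_succ _) (hY2.ge.trans ?_)
    have hYD : ∀ y : Y, y.1 ∉ B → y.1 ∈ D \ B := fun y h => ⟨hD1 (Or.inl y.2), h⟩
    refine Cardinal.mk_le_of_injective (f := fun y : Y => if h : y.1 ∈ B then
      (⟨.l ⟨y.1, h⟩, ?_⟩ : {b : Am B P g | ¬ Fr F b (.r i ⟨x, hxD⟩)}) else
      ⟨.r i ⟨y.1, hYD y h⟩, ?_⟩) ?_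
    · intro h'
      exact hY1 y.2 ((fr_congr hF (am_ty hok hF hL _ _)).1 h')
    · intro h'
      have h3 := (fr_congr hF (am_ty hok hF hL _ _)).1 h'
      rw [rr_rr] at h3
      exact hY1 y.2 h3
    · intro y z hyz
      by_cases hy : y.1 ∈ B <;> by_cases hz : z.1 ∈ B
      · simp only [dif_pos hy, dif_pos hz] at hyz
        have h3 := Am.l.inj (congrArg Subtype.val hyz)
        have h4 := congrArg Subtype.val h3
        exact Subtype.ext h4
      · simp only [dif_pos hy, dif_neg hz] at hyz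
        exact absurd (congrArg Subtype.val hyz) (by simp)
      · simp only [dif_neg hy, dif_pos hz] at hyz
        exact absurd (congrArg Subtype.val hyz) (by simp)
      · simp only [dif_neg hy, dif_neg hz] at hyz
        have h3 := eq_of_heq (Am.r.inj (congrArg Subtype.val hyz)).2
        have h4 := congrArg Subtype.val h3
        exact Subtype.ext h4
  -- few reverse links in the second structure
  have h2 : ∀ a : Am B P' g, 2 ^ (ℵ₀ : Cardinal.{0}) < #{b : Am B P' g | ¬ Fr F b a} →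
      ∃ m, a = .l m := by
    intro a ha
    rcases a with m | ⟨i, e⟩
    · exact ⟨m, rfl⟩
    · exfalso
      refine ha.not_ge ?_
      let ρ : B ⊕ (D' \ B : Set M) → Am B P' g := Sum.elim Am.l fun p => .r i p
      have hsub : {b : Am B P' g | ¬ Fr F b (.r i e)} ⊆ Set.range ρ := by
        intro b hb
        rcases b with m | ⟨j, e'⟩
        · exact ⟨Sum.inl m, rfl⟩
        · by_cases hij : j = i
          · subst hij
            exact ⟨Sum.inr e', rfl⟩
          · exfalso
            apply hb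
            refine (fr_congr hF (am_ty hok' hF hL _ _)).2 ?_
            exact (rr_un hok' hij e' e).1
      refine (Cardinal.mk_le_mk_of_subset hsub).trans (Cardinal.mk_range_le.trans ?_)
      rw [Cardinal.mk_sum, Cardinal.lift_id, Cardinal.lift_id]
      refine (add_le_add hB.card (((Cardinal.mk_le_mk_of_subset Set.sdiff_subset).trans
        hD3'.le).trans c_pos.le)).trans (Cardinal.add_eq_self c_pos.le).le
  have h3 : ∀ i : X, ∃ m, f (.r i ⟨x, hxD⟩) = .l m := by
    intro i
    refine h2 _ ((h1 i).trans_le ?_)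
    refine Cardinal.mk_le_of_injective (f := fun b :
      {b : Am B P g | ¬ Fr F b (.r i ⟨x, hxD⟩)} =>
      (⟨f b.1, ?_⟩ : {b : Am B P' g | ¬ Fr F b (f (.r i ⟨x, hxD⟩))})) ?_
    · exact fun h => b.2 ((fr_congr hF (ty_equiv f _ _)).1 h)
    · intro b b' hbb
      exact Subtype.ext (f.injective (congrArg Subtype.val hbb))
  choose m hm using h3
  have hinj : Function.Injective m := by
    intro i j hij
    have h3 := (hm i).trans ((congrArg Am.l hij).trans (hm j).symm)
    exact (Am.r.inj (f.injective h3)).1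
  have h4 := Cardinal.mk_le_of_injective hinj
  rw [hX] at h4
  exact (h4.trans hB.card).not_gt hμ

theorem cmp_card (hM : Models2 M φ) (hMc : 2 ^ (ℵ₀ : Cardinal.{0}) < #M) {B : Set M}
    (hB : Base F B) (x : M) : #(cmp F B x) ≤ 2 ^ (ℵ₀ : Cardinal.{0}) := by
  refine closure_card (lnk F B) _ c_pos.le (fun a => ?_) x
  by_cases ha : a ∈ B
  · have h : {b | lnk F B a b} = ∅ := Set.eq_empty_of_forall_notMem fun b hb => hb.1 ha
    rw [h]
    simp
  · have h : {b | lnk F B a b} ⊆ {b | ¬ Fr F a b} ∪ {b | ¬ Fr F b a} := by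
      rintro b ⟨-, -, h⟩
      by_contra hcon
      rw [Set.mem_union, not_or] at hcon
      exact h ⟨not_not.1 hcon.1, not_not.1 hcon.2⟩
    refine (Cardinal.mk_le_mk_of_subset h).trans ((Cardinal.mk_union_le _ _).trans ?_)
    refine (add_le_add ?_ (rev_le hF hL hφ hμ hcat hM hMc hB ha)).trans
      (Cardinal.add_eq_self c_pos.le).le
    exact (Cardinal.le_aleph0_iff_set_countable.2 (nf_countable hF.cnt a)).trans c_pos.le

theorem cmp_good (hM : Models2 M φ) (hMc : 2 ^ (ℵ₀ : Cardinal.{0}) < #M) {B : Set M}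
    (hB : Base F B) {x : M} (hx : x ∉ B) : Good F (B ∪ cmp F B x) := by
  refine good_of ?_ ?_
  · rintro a (ha | ha) χ hχ hf y hy
    · exact Or.inl (hB.good.fin ha hχ hf hy)
    · by_cases hyB : y ∈ B
      · exact Or.inl hyB
      · refine Or.inr ?_
        by_contra hcon
        exact (cmp_un hx ha hyB hcon).1 χ hχ hy hf
  · rintro a (ha | ha) χ hχ hf
    · exact (hB.good.inf ha hχ hf).mono fun y hy => ⟨Or.inl hy.1, hy.2⟩
    · have haB := cmp_notMem hx ha
      by_cases hsub : {y | Sat2 M χ a y} ⊆ B ∪ cmp F B x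
      · refine hf.mono fun y hy => ⟨hsub hy, hy⟩
      · obtain ⟨y, hy, hy'⟩ := Set.not_subset.1 hsub
        have hyB : y ∉ B := fun h => hy' (Or.inl h)
        have hyC : y ∉ cmp F B x := fun h => hy' (Or.inr h)
        have hun := cmp_un hx ha hyB hyC
        -- the elements of the base in the class of `y` which are free over `a`
        have h1 : ({z | z ∈ B ∧ ty F M z z = ty F M y y} \ {z | ¬ Fr F a z}).Infinite := by
          intro hfin
          have h2 : {z | z ∈ B ∧ ty F M z z = ty F M y y} ⊆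
              ({z | z ∈ B ∧ ty F M z z = ty F M y y} \ {z | ¬ Fr F a z}) ∪ {z | ¬ Fr F a z} := by
            intro z hz
            by_cases h : z ∈ {z | ¬ Fr F a z}
            · exact Or.inr h
            · exact Or.inl ⟨hz, h⟩
          have h3 := (hfin.countable.union (nf_countable hF.cnt a)).mono h2
          exact (hB.many y hyB).not_ge (Cardinal.le_aleph0_iff_set_countable.2 h3)
        refine h1.mono ?_
        rintro z ⟨⟨hz1, hz2⟩, hz3⟩
        refine ⟨Or.inl hz1, ?_⟩
        have hz3' : Fr F a z := not_not.1 hz3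
        have hun' : Un F a z := ⟨hz3', hB.good.fr hz1 haB⟩
        have h4 := uniq hF hL hφ hμ hcat hM hMc (x₁ := a) (y₁ := y) (x₂ := a) (y₂ := z)
          (hB.big a haB) (hB.big y hyB) rfl hz2.symm hun hun'
        exact (ty_iff.1 h4 χ hχ).1 hy

end comp

end Pool.Agent.H87.CT
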