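import Pool.Graph.R_seed8.Helper140.CC.Main

set_option autoImplicit false

/-!
# Formulas with two variables and counting quantifiers
-/

namespace Pool.Agent.H87.CT

open FirstOrder FirstOrder.Language

/-- The formulas of `L_{ω₁,ω}` with two variables `x` and `y` and with counting quantifiers:
the equation `x = y`, atomic formulas `R(z_1, ..., z_k)` where `z_i` is `x` or `y` (given by
`u : Fin k → Bool`), negations, countable conjunctions, the formula `cnt n φ`, which says that there
are at least `n` elements `y` with `φ(x, y)`, and the formula `φ(y, x)`. -/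
inductive C2 (L : FirstOrder.Language.{0, 0}) : Type
  | eq : C2 L
  | rel {k : ℕ} (R : L.Relations k) (u : Fin k → Bool) : C2 L
  | not (φ : C2 L) : C2 L
  | conj (φ : ℕ → C2 L) : C2 L
  | cnt (n : ℕ) (φ : C2 L) : C2 L
  | sw (φ : C2 L) : C2 L

/-- The formula is true in `M` for the values `a` of `x` and `b` of `y`. -/
def Sat2 {L : FirstOrder.Language.{0, 0}} (M : Type) [L.Structure M] : C2 L → M → M → Prop
  | .eq, a, b => a = b
  | .rel R u, a, b => Structure.RelMap R fun i => cond (u i) b a
  | .not φ, a, b => ¬ Sat2 M φ a b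
  | .conj φ, a, b => ∀ i, Sat2 M (φ i) a b
  | .cnt n φ, a, _ => (n : ℕ∞) ≤ {y | Sat2 M φ a y}.encard
  | .sw φ, a, b => Sat2 M φ b a

/-- The formula is true in `M` for all values of its variables. -/
def Models2 {L : FirstOrder.Language.{0, 0}} (M : Type) [L.Structure M] (φ : C2 L) : Prop :=
  ∀ a b : M, Sat2 M φ a b

end Pool.Agent.H87.CT
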