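import Pool.Agent.H87.CT.Am

set_option autoImplicit false

/-!
# Large amalgams, uniqueness of the types of unlinked pairs
-/

namespace Pool.Agent.H87.CT

open FirstOrder FirstOrder.Language Cardinal

variable {L : FirstOrder.Language.{0, 0}} {F : Set (C2 L)} {M : Type} [L.Structure M]

/-- the class of `x` is large -/
def Big (F : Set (C2 L)) (x : M) : Prop :=
  2 ^ (ℵ₀ : Cardinal.{0}) < #{z : M | ty F M z z = ty F M x x}

theorem c_pos : (ℵ₀ : Cardinal.{0}) < 2 ^ (ℵ₀ : Cardinal.{0}) := Cardinal.cantor ℵ₀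

theorem default_pair (hF : F.Countable) {x y : M} (hx : Big F x) (hy : Big F y) :
    ∃ p : M × M, ty F M p.1 p.1 = ty F M x x ∧ ty F M p.2 p.2 = ty F M y y ∧ Un F p.1 p.2 := by
  obtain ⟨Y, hY1, hY2⟩ := Cardinal.le_mk_iff_exists_subset.1 hy.le
  have hU : #(⋃ y' : Y, {z | ¬ Fr F y'.1 z} : Set M) ≤ 2 ^ (ℵ₀ : Cardinal.{0}) := by
    refine (Cardinal.mk_iUnion_le _).trans ?_
    calc _ ≤ 2 ^ (ℵ₀ : Cardinal.{0}) * 2 ^ (ℵ₀ : Cardinal.{0}) := by
          refine mul_le_mul' hY2.le (ciSup_le' fun y' => ?_)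
          exact (Cardinal.le_aleph0_iff_set_countable.2 (nf_countable hF y'.1)).trans c_pos.le
      _ = _ := Cardinal.mul_eq_self c_pos.le
  obtain ⟨x', hx', hx''⟩ := Set.not_subset.1 fun h : {z : M | ty F M z z = ty F M x x} ⊆
      (⋃ y' : Y, {z | ¬ Fr F y'.1 z} : Set M) =>
    (not_lt.2 ((Cardinal.mk_le_mk_of_subset h).trans hU)) hx
  obtain ⟨y', hy', hy''⟩ := Set.not_subset.1 fun h : Y ⊆ {z | ¬ Fr F x' z} => by
    have h1 := (Cardinal.mk_le_mk_of_subset h).trans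
      (Cardinal.le_aleph0_iff_set_countable.2 (nf_countable hF x'))
    rw [hY2] at h1
    exact not_lt.2 h1 c_pos
  refine ⟨(x', y'), hx', hY1 hy', ?_, ?_⟩
  · simpa using hy''
  · by_contra hcon
    exact hx'' (Set.mem_iUnion.2 ⟨⟨y', hy'⟩, hcon⟩)

/-- the function `g` gives unlinked pairs -/
structure GOk (F : Set (C2 L)) (B : Set M) (g : M → M → M × M) : Prop where
  g1 : ∀ e e', e ∉ B → e' ∉ B → ty F M (g e e').1 (g e e').1 = ty F M e e
  g2 : ∀ e e', e ∉ B → e' ∉ B → ty F M (g e e').2 (g e e').2 = ty F M e' e'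
  un : ∀ e e', e ∉ B → e' ∉ B → Un F (g e e').1 (g e e').2

theorem exists_g (hF : F.Countable) {B : Set M} (hB : Base F B) : ∃ g, GOk F B g := by
  classical
  have h : ∀ e e' : M, ∃ p : M × M, e ∉ B → e' ∉ B → ty F M p.1 p.1 = ty F M e e ∧
      ty F M p.2 p.2 = ty F M e' e' ∧ Un F p.1 p.2 := by
    intro e e'
    by_cases he : e ∉ B
    · by_cases he' : e' ∉ B
      · obtain ⟨p, hp⟩ := default_pair hF (hB.big e he) (hB.big e' he')
        exact ⟨p, fun _ _ => hp⟩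
      · exact ⟨(e, e'), fun _ h => absurd h he'⟩
    · exact ⟨(e, e'), fun h => absurd h he⟩
  choose g hg using h
  exact ⟨g, fun e e' h h' => (hg e e' h h').1, fun e e' h h' => (hg e e' h h').2.1,
    fun e e' h h' => (hg e e' h h').2.2⟩

theorem amOk {B : Set M} (hB : Good F B) {g : M → M → M × M} (hg : GOk F B g) {X : Type}
    {P : X → Set M} (h1 : ∀ i, Good F (B ∪ P i)) (h2 : ∀ i, ∀ e ∈ P i, e ∉ B) :
    AmOk F B P g := ⟨hB, h1, h2, hg.g1, hg.g2, hg.un⟩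

theorem am_card {B : Set M} {X : Type} {P : X → Set M} {g : M → M → M × M}
    {μ : Cardinal.{0}} (h0 : ℵ₀ ≤ μ) (hX : #X = μ) (hB : #B ≤ μ) (hP : ∀ i, #(P i) ≤ μ)
    (hne : ∀ i, (P i).Nonempty) : #(Am B P g) = μ := by
  refine le_antisymm ?_ ?_
  · refine am_le.trans ?_
    calc _ ≤ μ + Cardinal.sum fun _ : X => μ := add_le_add hB (Cardinal.sum_le_sum _ _ hP)
      _ = μ := by
        rw [Cardinal.sum_const', hX, Cardinal.mul_eq_self h0, Cardinal.add_eq_self h0]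
  · choose e he using hne
    rw [← hX]
    refine Cardinal.mk_le_of_injective (f := fun i : X => (.r i ⟨e i, he i⟩ : Am B P g)) ?_
    intro i j hij
    exact (Am.r.inj hij).1

theorem am_models {φ : C2 L} (hφ : φ ∈ F) (hF : Fg F) [L.IsRelational]
    (hL : ∀ k, Nonempty (L.Relations k) → k ≤ 2) (hM : Models2 M φ) {B : Set M} {X : Type}
    [LinearOrder X] {P : X → Set M} {g : M → M → M × M} (hok : AmOk F B P g) :
    Models2 (Am B P g) φ := by
  intro a b
  have h : Sat2 (Am B P g) φ a b ↔ Sat2 M φ (rr a b).1 (rr a b).2 :=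
    ty_iff.1 (am_ty hok hF hL a b) φ hφ
  exact h.2 (hM _ _)

/-- Any two models of cardinality `μ` are isomorphic. -/
def Cat2 (φ : C2 L) (μ : Cardinal.{0}) : Prop :=
  ∀ (M N : Type) [L.Structure M] [L.Structure N], #M = μ → #N = μ → Models2 M φ → Models2 N φ →
    Nonempty (M ≃[L] N)

theorem Iic_lt {μ : Cardinal.{0}} (h0 : ℵ₀ ≤ μ) (i : μ.ord.ToType) : #(Set.Iic i) < μ := by
  have h1 : #(Set.Iio i) < μ := by simpa using Cardinal.mk_Iio_lt i
  have h2 : Set.Iic i ⊆ Set.Iio i ∪ {i} := by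
    intro j hj
    rcases lt_or_eq_of_le (show j ≤ i from hj) with h | h
    · exact Or.inl h
    · exact Or.inr h
  refine ((Cardinal.mk_le_mk_of_subset h2).trans (Cardinal.mk_union_le _ _)).trans_lt ?_
  refine Cardinal.add_lt_of_lt h0 h1 ?_
  rw [Cardinal.mk_singleton]
  exact Cardinal.one_lt_aleph0.trans_le h0

theorem Ioi_eq {μ : Cardinal.{0}} (h0 : ℵ₀ ≤ μ) (i : μ.ord.ToType) : #(Set.Ioi i) = μ := by
  by_contra hne
  have hX : #(μ.ord.ToType) = μ := Cardinal.mk_ord_toType μ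
  have h1 : #(Set.Ioi i) < μ := lt_of_le_of_ne ((Cardinal.mk_set_le _).trans hX.le) hne
  have h2 : (Set.univ : Set μ.ord.ToType) ⊆ Set.Iic i ∪ Set.Ioi i := fun j _ =>
    (le_or_gt j i).imp id id
  have h3 := ((Cardinal.mk_le_mk_of_subset h2).trans (Cardinal.mk_union_le _ _)).trans_lt
    (Cardinal.add_lt_of_lt h0 (Iic_lt h0 i) h1)
  rw [Cardinal.mk_univ, hX] at h3
  exact h3.false

/-- the class of `x` has elements outside of the base -/
theorem exists_notMem {B : Set M} (hB : Base F B) {x : M} (hx : Big F x) :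
    ∃ e, e ∉ B ∧ ty F M e e = ty F M x x := by
  obtain ⟨e, he, he'⟩ := Set.not_subset.1 fun h : {z : M | ty F M z z = ty F M x x} ⊆ B =>
    (not_lt.2 ((Cardinal.mk_le_mk_of_subset h).trans hB.card)) hx
  exact ⟨e, he', he⟩

theorem good_diff {B D : Set M} (hB : Good F B) (hD : Good F D) : Good F (B ∪ D \ B) := by
  rw [Set.union_sdiff_self]
  exact good_union hB hD

section uniq

variable (hF : Fg F) [L.IsRelational] (hL : ∀ k, Nonempty (L.Relations k) → k ≤ 2) {φ : C2 L}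
  (hφ : φ ∈ F) {μ : Cardinal.{0}} (hμ : 2 ^ (ℵ₀ : Cardinal.{0}) < μ) (hcat : Cat2 φ μ)

include hF hL hφ hμ hcat

theorem uniq_aux (hM : Models2 M φ) (hMc : 2 ^ (ℵ₀ : Cardinal.{0}) < #M) {x₁ y₁ x₂ y₂ : M}
    (hx : Big F x₁) (hy : Big F y₁) (h1 : ty F M x₁ x₁ = ty F M x₂ x₂)
    (h2 : ty F M y₁ y₁ = ty F M y₂ y₂) (hu1 : Un F x₁ y₁) (hu2 : Un F x₂ y₂) {χ : C2 L}
    (hχ : χ ∈ F) (hs : Sat2 M χ x₁ y₁) : Sat2 M χ x₂ y₂ := by
  classical
  by_contra hns
  have hμ0 : ℵ₀ ≤ μ := (c_pos.trans hμ).le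
  obtain ⟨B, -, hB⟩ := exists_Base hF (∅ : Set M) (by simp) hMc
  obtain ⟨e₁, he1, he1'⟩ := exists_notMem hB hx
  obtain ⟨e₂, he2, he2'⟩ := exists_notMem hB hy
  obtain ⟨g₀, hg₀⟩ := exists_g hF.cnt hB
  obtain ⟨D, hD1, hD2, hD3⟩ := exists_good hF.cnt ⟨_, hF.eq⟩ ({e₁, e₂} : Set M) ℵ₀ le_rfl
    (Cardinal.mk_le_aleph0) (c_pos.trans hMc).le
  have heD1 : e₁ ∈ D \ B := ⟨hD1 (Or.inl rfl), he1⟩
  have heD2 : e₂ ∈ D \ B := ⟨hD1 (Or.inr rfl), he2⟩
  let g : M → M → M → M → M × M := fun x y e e' =>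
    if ty F M e e = ty F M x₁ x₁ ∧ ty F M e' e' = ty F M y₁ y₁ then (x, y) else g₀ e e'
  have hg : ∀ x y, ty F M x x = ty F M x₁ x₁ → ty F M y y = ty F M y₁ y₁ → Un F x y →
      GOk F B (g x y) := by
    intro x y hx hy hu
    refine ⟨fun e e' he he' => ?_, fun e e' he he' => ?_, fun e e' he he' => ?_⟩
    · by_cases h : ty F M e e = ty F M x₁ x₁ ∧ ty F M e' e' = ty F M y₁ y₁
      · simp only [g, if_pos h]
        exact hx.trans h.1.symm
      · simp only [g, if_neg h]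
        exact hg₀.g1 e e' he he'
    · by_cases h : ty F M e e = ty F M x₁ x₁ ∧ ty F M e' e' = ty F M y₁ y₁
      · simp only [g, if_pos h]
        exact hy.trans h.2.symm
      · simp only [g, if_neg h]
        exact hg₀.g2 e e' he he'
    · by_cases h : ty F M e e = ty F M x₁ x₁ ∧ ty F M e' e' = ty F M y₁ y₁
      · simp only [g, if_pos h]
        exact hu
      · simp only [g, if_neg h]
        exact hg₀.un e e' he he'
  let X := μ.ord.ToType
  have hX : #X = μ := Cardinal.mk_ord_toType μ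
  let P : X → Set M := fun _ => D \ B
  have hPc : ∀ i, #(P i) ≤ ℵ₀ := fun i => (Cardinal.mk_le_mk_of_subset Set.sdiff_subset).trans hD3.le
  have hok : ∀ g', GOk F B g' → AmOk F B P g' := fun g' hg' =>
    amOk hB.good hg' (fun i => good_diff hB.good hD2) fun i e he => he.2
  have hcard : ∀ g' : M → M → M × M, #(Am B P g') = μ := fun g' =>
    am_card hμ0 hX (hB.card.trans hμ.le) (fun i => (hPc i).trans hμ0) fun i => ⟨e₁, heD1⟩
  have hok1 := hok _ (hg x₁ y₁ rfl rfl hu1)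
  have hok2 := hok _ (hg x₂ y₂ h1.symm h2.symm hu2)
  obtain ⟨f⟩ := hcat (Am B P (g x₁ y₁)) (Am B P (g x₂ y₂)) (hcard _) (hcard _)
    (am_models hφ hF hL hM hok1) (am_models hφ hF hL hM hok2)
  -- the set which is large in the first model and small in the second
  have hZ1 : ∀ i : X, #{b : Am B P (g x₁ y₁) | ty F _ b b = ty F M y₁ y₁ ∧
      ¬ Sat2 _ χ (.r i ⟨e₁, heD1⟩) b} < μ := by
    intro i
    let ρ : B ⊕ (Set.Iic i × (D \ B : Set M)) → Am B P (g x₁ y₁) :=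
      Sum.elim Am.l fun p => .r p.1.1 p.2
    have hsub : {b : Am B P (g x₁ y₁) | ty F _ b b = ty F M y₁ y₁ ∧
        ¬ Sat2 _ χ (.r i ⟨e₁, heD1⟩) b} ⊆ Set.range ρ := by
      rintro b ⟨hb1, hb2⟩
      rcases b with m | ⟨j, e⟩
      · exact ⟨Sum.inl m, rfl⟩
      · rcases le_or_gt j i with hji | hij
        · exact ⟨Sum.inr (⟨j, hji⟩, e), rfl⟩
        · exfalso
          apply hb2
          refine (ty_iff.1 (am_ty hok1 hF hL _ _) χ hχ).2 ?_
          rw [rr_lt hij]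
          rw [am_ty hok1 hF hL, rr_rr] at hb1
          have h3 : g x₁ y₁ e₁ e.1 = (x₁, y₁) := if_pos ⟨he1', hb1⟩
          rw [h3]
          exact hs
    refine (Cardinal.mk_le_mk_of_subset hsub).trans_lt (Cardinal.mk_range_le.trans_lt ?_)
    rw [Cardinal.mk_sum, Cardinal.mk_prod, Cardinal.lift_id, Cardinal.lift_id, Cardinal.lift_id,
      Cardinal.lift_id]
    exact Cardinal.add_lt_of_lt hμ0 (hB.card.trans_lt hμ) (Cardinal.mul_lt_of_lt hμ0 (Iic_lt hμ0 i)
      ((hPc i).trans_lt (c_pos.trans hμ)))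
  have hZ2 : ∀ a : Am B P (g x₂ y₂), ty F _ a a = ty F M x₁ x₁ →
      #{b : Am B P (g x₂ y₂) | ty F _ b b = ty F M y₁ y₁ ∧ ¬ Sat2 _ χ a b} < μ →
      ∃ m, a = .l m := by
    intro a ha hlt
    rcases a with m | ⟨i, e⟩
    · exact ⟨m, rfl⟩
    · exfalso
      rw [am_ty hok2 hF hL, rr_rr] at ha
      refine hlt.not_ge ((Ioi_eq hμ0 i).ge.trans ?_)
      refine Cardinal.mk_le_of_injective (f := fun j : Set.Ioi i =>
        (⟨(.r j.1 ⟨e₂, heD2⟩ : Am B P (g x₂ y₂)), ?_, ?_⟩ :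
          {b : Am B P (g x₂ y₂) | ty F _ b b = ty F M y₁ y₁ ∧ ¬ Sat2 _ χ (.r i e) b})) ?_
      · rw [am_ty hok2 hF hL, rr_rr]
        exact he2'
      · intro h3
        have h4 := (ty_iff.1 (am_ty hok2 hF hL _ _) χ hχ).1 h3
        rw [rr_lt j.2] at h4
        have h5 : g x₂ y₂ e.1 e₂ = (x₂, y₂) := if_pos ⟨ha, he2'⟩
        rw [h5] at h4
        exact hns h4
      · intro j j' hjj
        exact Subtype.ext (Am.r.inj (congrArg Subtype.val hjj)).1
  have hf : ∀ i : X, ∃ m, f (.r i ⟨e₁, heD1⟩) = .l m := by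
    intro i
    refine hZ2 _ ?_ ?_
    · rw [ty_equiv, am_ty hok1 hF hL, rr_rr]
      exact he1'
    · refine lt_of_le_of_lt ?_ (hZ1 i)
      refine Cardinal.mk_le_of_injective (f := fun b :
        {b : Am B P (g x₂ y₂) | ty F _ b b = ty F M y₁ y₁ ∧ ¬ Sat2 _ χ (f (.r i ⟨e₁, heD1⟩)) b} =>
        (⟨f.symm b.1, ?_, ?_⟩ : {b : Am B P (g x₁ y₁) | ty F _ b b = ty F M y₁ y₁ ∧
          ¬ Sat2 _ χ (.r i ⟨e₁, heD1⟩) b})) ?_
      · have h3 := ty_equiv (F := F) f (f.symm b.1) (f.symm b.1)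
        rw [f.apply_symm_apply] at h3
        rw [← h3]
        exact b.2.1
      · intro h3
        apply b.2.2
        have h4 := (sat_equiv f χ _ _).2 h3
        rw [f.apply_symm_apply] at h4
        exact h4
      · intro b b' hbb
        exact Subtype.ext (f.symm.injective (congrArg Subtype.val hbb))
  choose m hm using hf
  have hinj : Function.Injective m := by
    intro i j hij
    have h3 := (hm i).trans ((congrArg Am.l hij).trans (hm j).symm)
    exact (Am.r.inj (f.injective h3)).1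
  have h3 := Cardinal.mk_le_of_injective hinj
  rw [hX] at h3
  exact (h3.trans hB.card).not_gt hμ

/-- The type of an unlinked pair is determined by the types of its elements. -/
theorem uniq (hM : Models2 M φ) (hMc : 2 ^ (ℵ₀ : Cardinal.{0}) < #M) {x₁ y₁ x₂ y₂ : M}
    (hx : Big F x₁) (hy : Big F y₁) (h1 : ty F M x₁ x₁ = ty F M x₂ x₂)
    (h2 : ty F M y₁ y₁ = ty F M y₂ y₂) (hu1 : Un F x₁ y₁) (hu2 : Un F x₂ y₂) :
    ty F M x₁ y₁ = ty F M x₂ y₂ := by
  refine ty_iff.2 fun χ hχ => ⟨?_, ?_⟩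
  · exact uniq_aux hF hL hφ hμ hcat hM hMc hx hy h1 h2 hu1 hu2 hχ
  · refine uniq_aux hF hL hφ hμ hcat hM hMc ?_ ?_ h1.symm h2.symm hu2 hu1 hχ
    · unfold Big
      rw [← h1]
      exact hx
    · unfold Big
      rw [← h2]
      exact hy

end uniq

end Pool.Agent.H87.CT
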