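import Pool.Agent.H87.CT.Tern
import Pool.Agent.H87.UQ.Ren

set_option autoImplicit false

/-!
# Formulas with two variables and counting quantifiers in `L_{ω₁,ω}`
-/

namespace Pool.Agent.H87.CT

open FirstOrder FirstOrder.Language Cardinal
open Pool.Agent.Helper140.CC (Fml Sat Models Categorical)
open Pool.Agent.H87.UQ (ren ren_sat)

variable {L : FirstOrder.Language.{0, 0}}

theorem le_encard_succ {α : Type} (S : Set α) (n : ℕ) :
    ((n + 1 : ℕ) : ℕ∞) ≤ S.encard ↔ ∃ y ∈ S, (n : ℕ∞) ≤ (S \ {y}).encard := by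
  constructor
  · intro h
    have hne : S.Nonempty := by
      rw [Set.nonempty_iff_ne_empty]
      rintro rfl
      rw [Set.encard_empty] at h
      exact absurd h (by simp)
    obtain ⟨y, hy⟩ := hne
    refine ⟨y, hy, ?_⟩
    rw [← Set.encard_sdiff_singleton_add_one hy, Nat.cast_add, Nat.cast_one] at h
    exact (ENat.add_le_add_iff_right ENat.one_ne_top).1 h
  · rintro ⟨y, hy, h⟩
    rw [← Set.encard_sdiff_singleton_add_one hy, Nat.cast_add, Nat.cast_one]
    exact add_le_add h le_rfl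

/-- the parts of the formula for the counting quantifier -/
def prt {k : ℕ} (ρ : Fml L 2) (σ : Fml L (k + 2)) : ℕ → Fml L (k + 2)
  | 0 => ren ![Fin.last (k + 1), 0] ρ
  | 1 => σ
  | i + 2 => if h : i < k then .not (.eq 0 (Fin.succ (Fin.castSucc ⟨i, h⟩))) else .eq 0 0

/-- counting quantifiers -/
theorem exists_cnt (ρ : Fml L 2) (n : ℕ) : ∀ k : ℕ, ∃ σ : Fml L (k + 1),
    ∀ (M : Type) [L.Structure M] (v : Fin (k + 1) → M), Sat M σ v ↔
      (n : ℕ∞) ≤ {y | Sat M ρ ![v (Fin.last k), y] ∧ ∀ i : Fin k, y ≠ v i.castSucc}.encard := by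
  induction n with
  | zero => exact fun k => ⟨.eq (Fin.last k) (Fin.last k), fun M _ v => by simp [Sat]⟩
  | succ n ih =>
    intro k
    obtain ⟨σ, hσ⟩ := ih (k + 1)
    refine ⟨.ex (.conj (prt ρ σ)), fun M _ v => ?_⟩
    rw [le_encard_succ]
    refine exists_congr fun y => ?_
    have e1 : (Fin.cons y v : Fin (k + 2) → M) ∘ ![Fin.last (k + 1), 0] =
        ![v (Fin.last k), y] := by
      funext i
      match i with
      | 0 => rfl
      | 1 => rfl
    have e2 : {y' | Sat M ρ ![(Fin.cons y v : Fin (k + 2) → M) (Fin.last (k + 1)), y'] ∧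
        ∀ i : Fin (k + 1), y' ≠ (Fin.cons y v : Fin (k + 2) → M) i.castSucc} =
        {y | Sat M ρ ![v (Fin.last k), y] ∧ ∀ i : Fin k, y ≠ v i.castSucc} \ {y} := by
      ext y'
      constructor
      · rintro ⟨h1, h2⟩
        exact ⟨⟨h1, fun i => h2 i.succ⟩, h2 0⟩
      · rintro ⟨⟨h1, h2⟩, h3⟩
        exact ⟨h1, fun i => Fin.cases h3 (fun i => h2 i) i⟩
    constructor
    · intro h
      have h0 := h 0
      have h1 := h 1
      change Sat M (ren ![Fin.last (k + 1), 0] ρ) _ at h0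
      change Sat M σ _ at h1
      rw [ren_sat, e1] at h0
      rw [hσ, e2] at h1
      refine ⟨⟨h0, fun i hy => ?_⟩, h1⟩
      have h3 := h (i.1 + 2)
      simp only [prt, dif_pos i.2] at h3
      exact h3 hy
    · rintro ⟨⟨h0, h2⟩, h1⟩ i
      match i with
      | 0 =>
        change Sat M (ren ![Fin.last (k + 1), 0] ρ) _
        rw [ren_sat, e1]
        exact h0
      | 1 =>
        change Sat M σ _
        rw [hσ, e2]
        exact h1
      | i + 2 =>
        by_cases hi : i < k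
        · simp only [prt, dif_pos hi]
          exact fun h => h2 ⟨i, hi⟩ h
        · simp only [prt, dif_neg hi]
          rfl

/-- The formulas with two variables and counting quantifiers are formulas of `L_{ω₁,ω}`. -/
theorem exists_fml (χ : C2 L) : ∃ ρ : Fml L 2, ∀ (M : Type) [L.Structure M] (v : Fin 2 → M),
    Sat M ρ v ↔ Sat2 M χ (v 0) (v 1) := by
  induction χ with
  | eq => exact ⟨.eq 0 1, fun M _ v => Iff.rfl⟩
  | @rel k R u =>
    refine ⟨.rel R fun i => cond (u i) 1 0, fun M _ v => ?_⟩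
    have e : (v ∘ fun i => cond (u i) (1 : Fin 2) 0) = fun i => cond (u i) (v 1) (v 0) := by
      funext i
      cases h : u i <;> simp [h]
    change Structure.RelMap R (v ∘ fun i => cond (u i) (1 : Fin 2) 0) ↔ _
    rw [e]
    exact Iff.rfl
  | not χ ih =>
    obtain ⟨ρ, hρ⟩ := ih
    exact ⟨.not ρ, fun M _ v => not_congr (hρ M v)⟩
  | conj χ ih =>
    choose ρ hρ using ih
    exact ⟨.conj ρ, fun M _ v => forall_congr' fun i => hρ i M v⟩
  | cnt n χ ih =>
    obtain ⟨ρ, hρ⟩ := ih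
    obtain ⟨σ, hσ⟩ := exists_cnt ρ n 0
    refine ⟨ren (fun _ => 0) σ, fun M _ v => ?_⟩
    rw [ren_sat, hσ]
    have e : {y | Sat M ρ ![(v ∘ fun _ : Fin 1 => (0 : Fin 2)) (Fin.last 0), y] ∧
        ∀ i : Fin 0, y ≠ (v ∘ fun _ : Fin 1 => (0 : Fin 2)) i.castSucc} =
        {y | Sat2 M χ (v 0) y} := by
      ext y
      constructor
      · rintro ⟨h1, -⟩
        exact (hρ M _).1 h1
      · intro h1
        exact ⟨(hρ M _).2 h1, fun i => i.elim0⟩
    rw [e]
    exact Iff.rfl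
  | sw χ ih =>
    obtain ⟨ρ, hρ⟩ := ih
    refine ⟨ren ![1, 0] ρ, fun M _ v => ?_⟩
    rw [ren_sat, hρ]
    exact Iff.rfl

/-- The sentences. -/
theorem exists_sentence (χ : C2 L) : ∃ ψ : Fml L 0, ∀ (M : Type) [L.Structure M],
    Models M ψ ↔ Models2 M χ := by
  obtain ⟨ρ, hρ⟩ := exists_fml χ
  refine ⟨.not (.ex (.ex (.not ρ))), fun M _ => ?_⟩
  constructor
  · intro h a b
    by_contra hcon
    refine h ⟨b, a, fun h' => hcon ?_⟩
    exact (hρ M _).1 h'
  · rintro h ⟨b, a, h'⟩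
    exact h' ((hρ M _).2 (h _ _))

/-- The transfer theorem. -/
theorem main [L.IsRelational] [Countable (Σ n, L.Relations n)] (ψ : Fml L 0) (φ : C2 L)
    (h : ∀ (N : Type) [L.Structure N], 2 ^ (ℵ₀ : Cardinal.{0}) < #N →
      (Models N ψ ↔ Models2 N φ)) {μ : Cardinal.{0}} (hμ : 2 ^ (ℵ₀ : Cardinal.{0}) < μ)
    (hcat : Categorical ψ μ) : (∀ k, Nonempty (L.Relations k) → k ≤ 2) ∧
      (∀ μ' : Cardinal.{0}, 2 ^ (ℵ₀ : Cardinal.{0}) < μ' → Categorical ψ μ') ∧
      ∀ (M : Type) [L.Structure M], Models M ψ → 2 ^ (ℵ₀ : Cardinal.{0}) < #M →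
      ∃ (B C I : Type) (e : B ⊕ (I × C) ≃ M),
      #B ≤ 2 ^ (ℵ₀ : Cardinal.{0}) ∧ #C ≤ 2 ^ (ℵ₀ : Cardinal.{0}) ∧
      ∀ (σ : Equiv.Perm I) (k : ℕ) (R : L.Relations k) (v : Fin k → B ⊕ (I × C)),
        Structure.RelMap R (fun i => e (prm σ (v i))) ↔ Structure.RelMap R fun i => e (v i) := by
  obtain ⟨F, hF, hφ⟩ := exists_fg φ
  obtain ⟨⟨M, _, hMc, hMψ⟩, hiso⟩ := hcat
  have hμ0 : ℵ₀ ≤ μ := (c_pos.trans hμ).le
  have hMφ : Models2 M φ := (h M (by rw [hMc]; exact hμ)).1 hMψ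
  have hcat2 : Cat2 φ μ := by
    intro M' N' _ _ hM' hN' h1 h2
    exact hiso M' N' hM' hN' ((h M' (by rw [hM']; exact hμ)).2 h1)
      ((h N' (by rw [hN']; exact hμ)).2 h2)
  have hL := no_tern hμ0 hcat2 hMc hMφ
  refine ⟨hL, fun μ' hμ' => ⟨?_, ?_⟩, fun N _ hN hNc => ?_⟩
  · obtain ⟨N, _, hNc, hN⟩ := exists_model hF hL hφ hMφ (by rw [hMc]; exact hμ) hμ'
    exact ⟨N, _, hNc, (h N (by rw [hNc]; exact hμ')).2 hN⟩
  · intro M' N' _ _ hM' hN' h1 h2
    exact transfer2 hF hL hφ hμ hcat2 hμ' M' N' hM' hN' ((h M' (by rw [hM']; exact hμ')).1 h1)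
      ((h N' (by rw [hN']; exact hμ')).1 h2)
  · exact exists_sym hF hL hφ hμ hcat2 ((h N hNc).1 hN) hNc

end Pool.Agent.H87.CT
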