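import Pool.Agent.H87.CT.Def

set_option autoImplicit false

/-!
# Countable fragments
-/

namespace Pool.Agent.H87.CT

open FirstOrder FirstOrder.Language Cardinal

variable {L : FirstOrder.Language.{0, 0}}

/-- a countable fragment -/
structure Fg (F : Set (C2 L)) : Prop where
  cnt : F.Countable
  eq : C2.eq ∈ F
  rel : ∀ {k : ℕ} (R : L.Relations k) (u : Fin k → Bool), C2.rel R u ∈ F
  not' : ∀ {φ}, C2.not φ ∈ F → φ ∈ F
  conj' : ∀ {φ}, C2.conj φ ∈ F → ∀ i, φ i ∈ F
  cnt' : ∀ {n φ}, C2.cnt n φ ∈ F → φ ∈ F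
  sw' : ∀ {φ}, C2.sw φ ∈ F → φ ∈ F
  nots : ∀ {φ}, φ ∈ F → C2.not φ ∈ F
  cnts : ∀ {φ}, φ ∈ F → ∀ n, C2.cnt n φ ∈ F
  sws : ∀ {φ}, φ ∈ F → C2.sw φ ∈ F

/-- the subformulas -/
def sub : C2 L → Set (C2 L)
  | .eq => {.eq}
  | .rel R u => {.rel R u}
  | .not φ => insert (.not φ) (sub φ)
  | .conj φ => insert (.conj φ) (⋃ i, sub (φ i))
  | .cnt n φ => insert (.cnt n φ) (sub φ)
  | .sw φ => insert (.sw φ) (sub φ)

theorem sub_self (φ : C2 L) : φ ∈ sub φ := by
  cases φ <;> simp [sub]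

theorem sub_countable (φ : C2 L) : (sub φ).Countable := by
  induction φ with
  | eq => exact Set.countable_singleton _
  | rel R u => exact Set.countable_singleton _
  | not φ ih => exact ih.insert _
  | conj φ ih => exact (Set.countable_iUnion ih).insert _
  | cnt n φ ih => exact ih.insert _
  | sw φ ih => exact ih.insert _

theorem sub_trans (φ : C2 L) : ∀ χ ∈ sub φ, sub χ ⊆ sub φ := by
  induction φ with
  | eq =>
    intro χ hχ
    rw [Set.mem_singleton_iff.1 hχ]
  | rel R u =>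
    intro χ hχ
    rw [Set.mem_singleton_iff.1 hχ]
  | not φ ih =>
    rintro χ (rfl | hχ)
    · exact subset_rfl
    · exact (ih χ hχ).trans (Set.subset_insert _ _)
  | conj φ ih =>
    rintro χ (rfl | hχ)
    · exact subset_rfl
    · obtain ⟨i, hi⟩ := Set.mem_iUnion.1 hχ
      exact ((ih i χ hi).trans (Set.subset_iUnion (fun i => sub (φ i)) i)).trans
        (Set.subset_insert _ _)
  | cnt n φ ih =>
    rintro χ (rfl | hχ)
    · exact subset_rfl
    · exact (ih χ hχ).trans (Set.subset_insert _ _)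
  | sw φ ih =>
    rintro χ (rfl | hχ)
    · exact subset_rfl
    · exact (ih χ hχ).trans (Set.subset_insert _ _)

/-- closure under negation, counting and swapping -/
inductive InF (S : Set (C2 L)) : C2 L → Prop
  | base {φ : C2 L} (h : φ ∈ S) : InF S φ
  | not {φ : C2 L} (h : InF S φ) : InF S (.not φ)
  | cnt (n : ℕ) {φ : C2 L} (h : InF S φ) : InF S (.cnt n φ)
  | sw {φ : C2 L} (h : InF S φ) : InF S (.sw φ)

/-- applying operations -/
def app (l : List (ℕ ⊕ Bool)) (φ : C2 L) : C2 L :=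
  l.foldr (fun o χ => match o with
    | Sum.inl n => .cnt n χ
    | Sum.inr true => .not χ
    | Sum.inr false => .sw χ) φ

theorem inF_app {S : Set (C2 L)} {φ : C2 L} (h : InF S φ) :
    ∃ (l : List (ℕ ⊕ Bool)) (χ : S), φ = app l χ.1 := by
  induction h with
  | base h => exact ⟨[], ⟨_, h⟩, rfl⟩
  | not _ ih =>
    obtain ⟨l, χ, rfl⟩ := ih
    exact ⟨Sum.inr true :: l, χ, rfl⟩
  | cnt n _ ih =>
    obtain ⟨l, χ, rfl⟩ := ih
    exact ⟨Sum.inl n :: l, χ, rfl⟩
  | sw _ ih =>
    obtain ⟨l, χ, rfl⟩ := ih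
    exact ⟨Sum.inr false :: l, χ, rfl⟩

theorem exists_fg [hL : Countable (Σ n, L.Relations n)] (φ : C2 L) :
    ∃ F : Set (C2 L), Fg F ∧ φ ∈ F := by
  let S : Set (C2 L) := sub φ ∪ ({C2.eq} ∪
    Set.range fun p : Σ k : (Σ n, L.Relations n), (Fin k.1 → Bool) => C2.rel p.1.2 p.2)
  have hS : S.Countable := (sub_countable φ).union
    ((Set.countable_singleton _).union (Set.countable_range _))
  have hnot : ∀ {χ}, C2.not χ ∈ S → χ ∈ S := by
    rintro χ (h | h | ⟨p, h⟩)
    · exact Or.inl (sub_trans φ _ h (Or.inr (sub_self χ)))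
    · exact absurd h (by simp)
    · exact absurd h (by simp)
  have hconj : ∀ {χ}, C2.conj χ ∈ S → ∀ i, χ i ∈ S := by
    rintro χ (h | h | ⟨p, h⟩) i
    · exact Or.inl (sub_trans φ _ h (Or.inr (Set.mem_iUnion.2 ⟨i, sub_self _⟩)))
    · exact absurd h (by simp)
    · exact absurd h (by simp)
  have hcnt : ∀ {n χ}, C2.cnt n χ ∈ S → χ ∈ S := by
    rintro n χ (h | h | ⟨p, h⟩)
    · exact Or.inl (sub_trans φ _ h (Or.inr (sub_self χ)))
    · exact absurd h (by simp)
    · exact absurd h (by simp)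
  have hsw : ∀ {χ}, C2.sw χ ∈ S → χ ∈ S := by
    rintro χ (h | h | ⟨p, h⟩)
    · exact Or.inl (sub_trans φ _ h (Or.inr (sub_self χ)))
    · exact absurd h (by simp)
    · exact absurd h (by simp)
  refine ⟨{χ | InF S χ}, ⟨?_, ?_, ?_, ?_, ?_, ?_, ?_, ?_, ?_, ?_⟩, InF.base (Or.inl (sub_self φ))⟩
  · have hSc : Countable S := hS
    refine (Set.countable_range fun p : List (ℕ ⊕ Bool) × S => app p.1 p.2.1).mono ?_
    intro χ hχ
    obtain ⟨l, ξ, rfl⟩ := inF_app hχ
    exact ⟨(l, ξ), rfl⟩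
  · exact InF.base (Or.inr (Or.inl rfl))
  · intro k R u
    exact InF.base (Or.inr (Or.inr ⟨⟨⟨k, R⟩, u⟩, rfl⟩))
  · intro χ h
    cases h with
    | base h => exact InF.base (hnot h)
    | not h => exact h
  · intro χ h i
    cases h with
    | base h => exact InF.base (hconj h i)
  · intro n χ h
    cases h with
    | base h => exact InF.base (hcnt h)
    | cnt n h => exact h
  · intro χ h
    cases h with
    | base h => exact InF.base (hsw h)
    | sw h => exact h
  · exact fun h => InF.not h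
  · exact fun h n => InF.cnt n h
  · exact fun h => InF.sw h

end Pool.Agent.H87.CT
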