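import Pool.Agent.H87.CT.Ty
import Pool.Graph.R_seed8.Helper140.CC.LS

set_option autoImplicit false

/-!
# Good sets, unlinked pairs
-/

namespace Pool.Agent.H87.CT

open FirstOrder FirstOrder.Language Cardinal
open Pool.Agent.Helper140.CC (Cl ClOne exists_closed Sb)

variable {L : FirstOrder.Language.{0, 0}} {F : Set (C2 L)} {M N : Type} [L.Structure M]
  [L.Structure N]

/-- sets in which all numbers of the elements `y` with `χ(a, y)` are the same as in `M` -/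
def Good (F : Set (C2 L)) (D : Set M) : Prop :=
  ∀ a ∈ D, ∀ χ ∈ F, {y | y ∈ D ∧ Sat2 M χ a y}.encard = {y | Sat2 M χ a y}.encard

theorem Good.fin {D : Set M} (h : Good F D) {a : M} (ha : a ∈ D) {χ : C2 L} (hχ : χ ∈ F)
    (hf : {y | Sat2 M χ a y}.Finite) {y : M} (hy : Sat2 M χ a y) : y ∈ D := by
  have h1 : {y | y ∈ D ∧ Sat2 M χ a y} = {y | Sat2 M χ a y} :=
    hf.eq_of_subset_of_encard_le' (fun z hz => hz.2) (h a ha χ hχ).ge
  have h2 : y ∈ {y | y ∈ D ∧ Sat2 M χ a y} := by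
    rw [h1]
    exact hy
  exact h2.1

theorem Good.inf {D : Set M} (h : Good F D) {a : M} (ha : a ∈ D) {χ : C2 L} (hχ : χ ∈ F)
    (hf : {y | Sat2 M χ a y}.Infinite) : {y | y ∈ D ∧ Sat2 M χ a y}.Infinite := by
  rw [← Set.encard_eq_top_iff, h a ha χ hχ]
  exact Set.encard_eq_top_iff.2 hf

theorem good_of {D : Set M} (h1 : ∀ a ∈ D, ∀ χ ∈ F, {y | Sat2 M χ a y}.Finite →
      ∀ y, Sat2 M χ a y → y ∈ D)
    (h2 : ∀ a ∈ D, ∀ χ ∈ F, {y | Sat2 M χ a y}.Infinite → {y | y ∈ D ∧ Sat2 M χ a y}.Infinite) :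
    Good F D := by
  intro a ha χ hχ
  by_cases hf : {y | Sat2 M χ a y}.Finite
  · congr 1
    ext y
    exact ⟨fun h => h.2, fun h => ⟨h1 a ha χ hχ hf y h, h⟩⟩
  · rw [Set.encard_eq_top_iff.2 hf, Set.encard_eq_top_iff.2 (h2 a ha χ hχ hf)]

theorem good_iUnion {ι : Type} {D : ι → Set M} (h : ∀ i, Good F (D i)) : Good F (⋃ i, D i) := by
  refine good_of ?_ ?_
  · intro a ha χ hχ hf y hy
    obtain ⟨i, hi⟩ := Set.mem_iUnion.1 ha
    exact Set.mem_iUnion.2 ⟨i, (h i).fin hi hχ hf hy⟩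
  · intro a ha χ hχ hf
    obtain ⟨i, hi⟩ := Set.mem_iUnion.1 ha
    exact ((h i).inf hi hχ hf).mono fun y hy => ⟨Set.mem_iUnion.2 ⟨i, hy.1⟩, hy.2⟩

theorem good_union {D D' : Set M} (h : Good F D) (h' : Good F D') : Good F (D ∪ D') := by
  have h1 : D ∪ D' = ⋃ b : Bool, cond b D D' := by
    ext x
    simp [or_comm]
  rw [h1]
  refine good_iUnion fun b => ?_
  cases b
  · exact h'
  · exact h

theorem exists_good (hF : F.Countable) (hne : F.Nonempty) (X : Set M) (κ : Cardinal.{0})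
    (h0 : ℵ₀ ≤ κ) (hX : #X ≤ κ) (hM : κ ≤ #M) : ∃ D : Set M, X ⊆ D ∧ Good F D ∧ #D = κ := by
  classical
  have hen : ∀ (S : Set M) (a : M), ∃ e : ℕ → M, (S.Finite → ∀ y ∈ S, ∃ n, e n = y) ∧
      (S.Infinite → {y | y ∈ S ∧ ∃ n, e n = y}.Infinite) := by
    intro S a
    by_cases hS : S.Finite
    · by_cases hSe : S.Nonempty
      · obtain ⟨f, hf⟩ := hS.countable.exists_eq_range hSe
        refine ⟨f, fun _ y hy => ?_, fun h => absurd hS h⟩
        rw [hf] at hy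
        exact hy
      · rw [Set.not_nonempty_iff_eq_empty] at hSe
        exact ⟨fun _ => a, fun _ y hy => by rw [hSe] at hy; exact hy.elim, fun h => absurd hS h⟩
    · have hS' : S.Infinite := hS
      refine ⟨fun n => (hS'.natEmbedding _ n).1, fun h => absurd h hS, fun _ => ?_⟩
      refine (Set.infinite_range_of_injective (Subtype.val_injective.comp
        (hS'.natEmbedding _).injective)).mono ?_
      rintro _ ⟨n, rfl⟩
      exact ⟨(hS'.natEmbedding _ n).2, n, rfl⟩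
  choose e he1 he2 using fun (χ : C2 L) (a : M) => hen {y | Sat2 M χ a y} a
  obtain ⟨q, hq⟩ : ∃ q : ℕ → C2 L × ℕ, ∀ χ ∈ F, ∀ n, ∃ i, q i = (χ, n) := by
    have hFc : Countable F := hF
    have hFn : Nonempty F := hne.to_subtype
    obtain ⟨q, hq⟩ := exists_surjective_nat (F × ℕ)
    refine ⟨fun i => ((q i).1.1, (q i).2), fun χ hχ n => ?_⟩
    obtain ⟨i, hi⟩ := hq (⟨χ, hχ⟩, n)
    exact ⟨i, by simp only [hi]⟩
  let W : ℕ → Σ m : ℕ, ((Fin m → M) → M) := fun i => ⟨1, fun v => e (q i).1 (v 0) (q i).2⟩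
  obtain ⟨D, hXD, hcl, hDc⟩ := exists_closed W X κ h0 hX hM
  have hmem : ∀ a ∈ D, ∀ χ ∈ F, ∀ n, e χ a n ∈ D := by
    intro a ha χ hχ n
    obtain ⟨i, hi⟩ := hq χ hχ n
    have h1 := hcl i (fun _ => a) fun _ => ha
    change e (q i).1 a (q i).2 ∈ D at h1
    rw [hi] at h1
    exact h1
  refine ⟨D, hXD, good_of ?_ ?_, hDc⟩
  · intro a ha χ hχ hf y hy
    obtain ⟨n, rfl⟩ := he1 χ a hf y hy
    exact hmem a ha χ hχ n
  · intro a ha χ hχ hf
    refine (he2 χ a hf).mono ?_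
    rintro y ⟨h1, n, rfl⟩
    exact ⟨hmem a ha χ hχ n, h1⟩

/-! ## Unlinked pairs -/

/-- `y` is free over `x` -/
def Fr (F : Set (C2 L)) (x y : M) : Prop :=
  ∀ χ ∈ F, Sat2 M χ x y → {z | Sat2 M χ x z}.Infinite

/-- `x` and `y` are not linked -/
def Un (F : Set (C2 L)) (x y : M) : Prop := Fr F x y ∧ Fr F y x

theorem Un.symm {x y : M} (h : Un F x y) : Un F y x := ⟨h.2, h.1⟩

theorem nf_countable (hF : F.Countable) (x : M) : {y | ¬ Fr F x y}.Countable := by
  classical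
  have hFc : Countable F := hF
  have h1 : {y | ¬ Fr F x y} ⊆ ⋃ χ : F, if {z | Sat2 M χ.1 x z}.Finite then
      {z | Sat2 M χ.1 x z} else ∅ := by
    intro y hy
    change ¬ ∀ χ ∈ F, _ at hy
    push Not at hy
    obtain ⟨χ, hχ, h2, h3⟩ := hy
    refine Set.mem_iUnion.2 ⟨⟨χ, hχ⟩, ?_⟩
    rw [if_pos (by simpa using h3)]
    exact h2
  refine Set.Countable.mono h1 (Set.countable_iUnion fun χ => ?_)
  by_cases h : {z | Sat2 M χ.1 x z}.Finite
  · rw [if_pos h]
    exact h.countable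
  · rw [if_neg h]
    exact Set.countable_empty

theorem Good.fr {D : Set M} (h : Good F D) {x y : M} (hx : x ∈ D) (hy : y ∉ D) : Fr F x y := by
  intro χ hχ hs
  by_contra hcon
  exact hy (h.fin hx hχ (by simpa using hcon) hs)

theorem fr_congr (hF : Fg F) {a b : M} {a' b' : N} (h : ty F M a b = ty F N a' b') :
    Fr F a b ↔ Fr F a' b' := by
  refine forall_congr' fun χ => forall_congr' fun hχ => ?_
  rw [ty_iff.1 h χ hχ, ← Set.encard_eq_top_iff, ← Set.encard_eq_top_iff, encard_eq hF h hχ]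

theorem un_congr (hF : Fg F) {a b : M} {a' b' : N} (h : ty F M a b = ty F N a' b') :
    Un F a b ↔ Un F a' b' := and_congr (fr_congr hF h) (fr_congr hF (ty_swap hF h))

theorem Fr.ne (hF : Fg F) {x y : M} (h : Fr F x y) : x ≠ y := by
  rintro rfl
  have h1 := h .eq hF.eq rfl
  apply h1
  have h2 : {z | Sat2 M (.eq : C2 L) x z} = {x} := by
    ext z
    exact eq_comm
  rw [h2]
  exact Set.finite_singleton x

end Pool.Agent.H87.CT
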