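import Pool.Agent.H87.CT.Tmpl

set_option autoImplicit false

/-!
# Every large model is an amalgam of copies of one component
-/

namespace Pool.Agent.H87.CT

open FirstOrder FirstOrder.Language Cardinal

variable {L : FirstOrder.Language.{0, 0}} {F : Set (C2 L)} {M : Type} [L.Structure M]

section rep

variable (hF : Fg F) [L.IsRelational] (hL : ∀ k, Nonempty (L.Relations k) → k ≤ 2) {φ : C2 L}
  (hφ : φ ∈ F) {μ : Cardinal.{0}} (hμ : 2 ^ (ℵ₀ : Cardinal.{0}) < μ) (hcat : Cat2 φ μ)
  (hM : Models2 M φ) (hMc : 2 ^ (ℵ₀ : Cardinal.{0}) < #M) {B : Set M} (hB : Base F B)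
  {g : M → M → M × M} (hg : GOk F B g)

include hF hL hφ hμ hcat hM hMc hB hg

theorem exists_rep {c : M} (hc : c ∉ B) : ∃ (I : Type) (_ : LinearOrder I), #I = #M ∧
    ∃ e : Am B (fun _ : I => cmp F B c) g ≃ M, ∀ a b, ty F M (e a) (e b) = ty F _ a b := by
  classical
  -- the components
  let s : Setoid {x : M // x ∉ B} :=
    ⟨fun x y => y.1 ∈ cmp F B x.1, fun x => self_cmp _ _, fun h => cmp_symm h,
      fun h h' => cmp_trans h h'⟩
  let I := Quotient s
  let _ : LinearOrder I := linearOrderOfSTO WellOrderingRel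
  let rep : I → M := fun i => (Quotient.out i).1
  have hrep : ∀ i, rep i ∉ B := fun i => (Quotient.out i).2
  have hrep1 : ∀ (x : M) (hx : x ∉ B), x ∈ cmp F B (rep (Quotient.mk s ⟨x, hx⟩)) := fun x hx =>
    Quotient.exact (Quotient.out_eq (Quotient.mk s ⟨x, hx⟩))
  have hrep2 : ∀ i j, ∀ x ∈ cmp F B (rep i), x ∈ cmp F B (rep j) → i = j := by
    intro i j x hi hj
    have h1 : s.r (Quotient.out i) (Quotient.out j) := cmp_trans hi (cmp_symm hj)
    rw [← Quotient.out_eq i, ← Quotient.out_eq j]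
    exact Quotient.sound h1
  choose h hh1 hh2 using fun i => cmp_iso hF hL hφ hμ hcat hM hMc hB hc (hrep i)
  let e0 : Am B (fun _ : I => cmp F B c) g → M
    | .l m => m.1
    | .r i x => (h i x).1
  have hin : ∀ i x, (h i x).1 ∉ B := fun i x => cmp_notMem (hrep i) (h i x).2
  have hbij : Function.Bijective e0 := by
    constructor
    · rintro (m | ⟨i, x⟩) (m' | ⟨j, y⟩) hxy
      · exact congrArg Am.l (Subtype.ext hxy)
      · have h' : m.1 = (h j y).1 := hxy
        exact absurd (h' ▸ m.2) (hin j y)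
      · have h' : (h i x).1 = m'.1 := hxy
        exact absurd (h'.symm ▸ m'.2) (hin i x)
      · have h' : (h i x).1 = (h j y).1 := hxy
        obtain rfl : i = j := hrep2 i j _ (h i x).2 (h' ▸ (h j y).2)
        have h2 := (h i).injective (Subtype.ext h')
        rw [h2]
    · intro x
      by_cases hx : x ∈ B
      · exact ⟨.l ⟨x, hx⟩, rfl⟩
      · refine ⟨.r (Quotient.mk s ⟨x, hx⟩) ((h _).symm ⟨x, hrep1 x hx⟩), ?_⟩
        change (h _ ((h _).symm _)).1 = x
        rw [Equiv.apply_symm_apply]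
  have hok : AmOk F B (fun _ : I => cmp F B c) g :=
    amOk hB.good hg (fun i => cmp_good hF hL hφ hμ hcat hM hMc hB hc) fun i e he => cmp_notMem hc he
  have hcC := cmp_card hF hL hφ hμ hcat hM hMc hB c
  have hI : #I = #M := by
    refine le_antisymm ?_ ?_
    · refine Cardinal.mk_le_of_injective (f := rep) ?_
      intro i j hij
      exact hrep2 i j _ (self_cmp _ _) (by rw [← hij]; exact self_cmp _ _)
    · rw [← Cardinal.mk_congr (Equiv.ofBijective e0 hbij)]
      by_contra hlt
      push Not at hlt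
      have h1 := hlt.trans_le am_le
      rw [Cardinal.sum_const'] at h1
      have hlt' : #I < #M := by
        rw [← Cardinal.mk_congr (Equiv.ofBijective e0 hbij)]
        exact hlt
      have h2 : #B + #I * #(cmp F B c) < #M := by
        refine Cardinal.add_lt_of_lt (c_pos.trans hMc).le (hB.card.trans_lt hMc) ?_
        exact Cardinal.mul_lt_of_lt (c_pos.trans hMc).le hlt' (hcC.trans_lt hMc)
      have h3 := (am_le (B := B) (P := fun _ : I => cmp F B c) (g := g)).trans_lt
        (by rw [Cardinal.sum_const']; exact h2)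
      rw [Cardinal.mk_congr (Equiv.ofBijective e0 hbij)] at h3
      exact h3.false
  refine ⟨I, inferInstance, hI, Equiv.ofBijective e0 hbij, ?_⟩
  rintro (m | ⟨i, x⟩) (m' | ⟨j, y⟩)
  · exact (am_ll hF hL hok m m').symm
  · exact (hh1 j m.1 m.2 y).trans (am_lr hF hL hok m j y).symm
  · exact ty_swap hF ((hh1 i m'.1 m'.2 x).trans (am_lr hF hL hok m' i x).symm)
  · by_cases hij : i = j
    · subst hij
      exact (hh2 i x y).trans (am_rr hF hL hok i x y).symm
    · rw [am_dft hF hL hφ hμ hcat hM hMc hB hg hok hij]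
      have hx := cmp_notMem hc x.2
      have hy := cmp_notMem hc y.2
      change ty F M (h i x).1 (h j y).1 = _
      refine uniq hF hL hφ hμ hcat hM hMc (hB.big _ (hin i x)) (hB.big _ (hin j y)) ?_ ?_ ?_
        (hg.un _ _ hx hy)
      · rw [hh2 i x x, hg.g1 _ _ hx hy]
      · rw [hh2 j y y, hg.g2 _ _ hx hy]
      · refine cmp_un (hrep i) (h i x).2 (hin j y) fun h' => hij ?_
        exact hrep2 i j _ h' (h j y).2

omit hF hL hφ hμ hcat hM hMc hB hg in
/-- the map from the small part and new petals -/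
def iot {C : Set M} {X I Y : Type} {J : Set X} (u : J → I) (v : Y → I) :
    {a : Am B (fun _ : X => C) g // ∀ i, pi a = some i → i ∈ J} ⊕ (Y × C) →
      Am B (fun _ : I => C) g
  | Sum.inl ⟨.l m, _⟩ => .l m
  | Sum.inl ⟨.r i c, h⟩ => .r (u ⟨i, h i rfl⟩) c
  | Sum.inr p => .r (v p.1) p.2

omit hF hL hφ hμ hcat hM hMc hB hg in
theorem iot_bij {C : Set M} {X I Y : Type} {J : Set X} {u : J → I} {v : Y → I}
    (huv : Function.Bijective (Sum.elim u v)) :
    Function.Bijective (iot (B := B) (g := g) (C := C) u v) := by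
  have hu : Function.Injective u := fun a b h => Sum.inl.inj (huv.1 (show Sum.elim u v (Sum.inl a) =
    Sum.elim u v (Sum.inl b) from h))
  have hv : Function.Injective v := fun a b h => Sum.inr.inj (huv.1 (show Sum.elim u v (Sum.inr a) =
    Sum.elim u v (Sum.inr b) from h))
  have hne : ∀ a b, u a ≠ v b := fun a b h => by
    have h1 := huv.1 (show Sum.elim u v (Sum.inl a) = Sum.elim u v (Sum.inr b) from h)
    exact absurd h1 (by simp)
  constructor
  · rintro (⟨m | ⟨i, c⟩, h⟩ | ⟨y, c⟩) (⟨m' | ⟨i', c'⟩, h'⟩ | ⟨y', c'⟩) hab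
    · have h1 : m = m' := Am.l.inj hab
      subst h1
      rfl
    · exact absurd hab (by simp [iot])
    · exact absurd hab (by simp [iot])
    · exact absurd hab (by simp [iot])
    · have h1 := Am.r.inj hab
      have h2 := congrArg Subtype.val (hu h1.1)
      have h3 := eq_of_heq h1.2
      simp only at h2
      subst h2
      subst h3
      rfl
    · exact absurd (Am.r.inj hab).1 (hne _ _)
    · exact absurd hab (by simp [iot])
    · exact absurd (Am.r.inj hab).1.symm (hne _ _)
    · have h1 := Am.r.inj hab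
      have h2 := hv h1.1
      have h3 := eq_of_heq h1.2
      simp only at h2 h3
      subst h2
      subst h3
      rfl
  · rintro (m | ⟨i, c⟩)
    · exact ⟨Sum.inl ⟨.l m, fun i h => absurd h (by simp [pi])⟩, rfl⟩
    · obtain ⟨(a | y), h⟩ := huv.2 i
      · have h1 : u a = i := h
        subst h1
        refine ⟨Sum.inl ⟨.r a.1 c, fun i h => ?_⟩, rfl⟩
        rw [← Option.some.inj h]
        exact a.2
      · have h1 : v y = i := h
        subst h1
        exact ⟨Sum.inr (y, c), rfl⟩

/-- the types in the amalgam after adding new petals -/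
theorem iot_ty {C : Set M} {X I Y : Type} [LinearOrder X] [LinearOrder I] {J : Set X} {u : J → I}
    {v : Y → I} (huv : Function.Bijective (Sum.elim u v))
    (hok : AmOk F B (fun _ : X => C) g) (hok' : AmOk F B (fun _ : I => C) g) {i₀ i₁ : X}
    (hi₀ : i₀ ∉ J) (hi : i₀ ≠ i₁) :
    (∀ a b : {a : Am B (fun _ : X => C) g // ∀ i, pi a = some i → i ∈ J},
      ty F _ (iot u v (Sum.inl a)) (iot u v (Sum.inl b)) = ty F _ a.1 b.1) ∧
    (∀ (a : {a : Am B (fun _ : X => C) g // ∀ i, pi a = some i → i ∈ J}) (y : Y) (c : C),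
      ty F _ (iot u v (Sum.inl a)) (iot u v (Sum.inr (y, c))) = ty F _ a.1 (.r i₀ c)) ∧
    (∀ (y : Y) (c c' : C), ty F _ (iot (B := B) (g := g) u v (Sum.inr (y, c)))
      (iot u v (Sum.inr (y, c'))) =
      ty F (Am B (fun _ : X => C) g) (.r i₀ c) (.r i₀ c')) ∧
    (∀ (y y' : Y) (c c' : C), y ≠ y' → ty F _ (iot (B := B) (g := g) u v (Sum.inr (y, c)))
      (iot u v (Sum.inr (y', c'))) =
      ty F (Am B (fun _ : X => C) g) (.r i₀ c) (.r i₁ c')) := by
  have hu : Function.Injective u := fun a b h => Sum.inl.inj (huv.1 (show Sum.elim u v (Sum.inl a) =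
    Sum.elim u v (Sum.inl b) from h))
  have hv : Function.Injective v := fun a b h => Sum.inr.inj (huv.1 (show Sum.elim u v (Sum.inr a) =
    Sum.elim u v (Sum.inr b) from h))
  have hne : ∀ a b, u a ≠ v b := fun a b h => by
    have h1 := huv.1 (show Sum.elim u v (Sum.inl a) = Sum.elim u v (Sum.inr b) from h)
    exact absurd h1 (by simp)
  have hd := fun {i j : X} (h : i ≠ j) => am_dft hF hL hφ hμ hcat hM hMc hB hg hok h
  have hd' := fun {i j : I} (h : i ≠ j) => am_dft hF hL hφ hμ hcat hM hMc hB hg hok' h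
  refine ⟨?_, ?_, ?_, ?_⟩
  · rintro ⟨m | ⟨i, c⟩, h⟩ ⟨m' | ⟨i', c'⟩, h'⟩
    · exact (am_ll hF hL hok' m m').trans (am_ll hF hL hok m m').symm
    · exact (am_lr hF hL hok' m _ c').trans (am_lr hF hL hok m i' c').symm
    · exact ty_swap hF ((am_lr hF hL hok' m' _ c).trans (am_lr hF hL hok m' i c).symm)
    · by_cases hii : i = i'
      · subst hii
        exact (am_rr hF hL hok' _ c c').trans (am_rr hF hL hok i c c').symm
      · refine (hd' (fun h2 => hii ?_) c c').trans (hd hii c c').symm
        exact congrArg Subtype.val (hu h2)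
  · rintro ⟨m | ⟨i, c'⟩, h⟩ y c
    · exact (am_lr hF hL hok' m _ c).trans (am_lr hF hL hok m i₀ c).symm
    · refine (hd' (hne _ _) c' c).trans (hd (fun h2 => hi₀ ?_) c' c).symm
      rw [← h2]
      exact h i rfl
  · intro y c c'
    exact (am_rr hF hL hok' (v y) c c').trans (am_rr hF hL hok i₀ c c').symm
  · intro y y' c c' hyy
    exact (hd' (fun h2 => hyy (hv h2)) c c').trans (hd hi c c').symm

end rep

end Pool.Agent.H87.CT
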