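import Mathlib

set_option autoImplicit false

/-!
# Bijections between structures with petals
-/

namespace Pool.Agent.H87.CT

open Cardinal

/-- a decomposition into a base and petals: `U` is the relation of not being linked -/
structure Dec {M X : Type} (κ : Cardinal.{0}) (U : M → M → Prop) (π : M → Option X) : Prop where
  ne : ∀ i, ∃ x, π x = some i
  base : #{x | π x = none} ≤ κ
  pet : ∀ i, #{x | π x = some i} ≤ κ
  un : ∀ x y i j, π x = some i → π y = some j → i ≠ j → U x y
  con : ∀ x y i, π x = some i → π y = some i →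
    Relation.ReflTransGen (fun a b => π a ≠ none ∧ π b ≠ none ∧ ¬ U a b) x y

variable {M N X Y : Type} {κ : Cardinal.{0}} {U : M → M → Prop} {V : N → N → Prop}
  {π : M → Option X} {ρ : N → Option Y}

theorem half [Nonempty Y] (hM : Dec κ U π) (hN : Dec κ V ρ) (f : M → N)
    (hf : Function.Injective f) (hUV : ∀ a b, V (f a) (f b) ↔ U a b) :
    ∃ (Z0 : Set X) (j : X → Y), #Z0 ≤ κ ∧
      ∀ i ∉ Z0, ∀ x, π x = some i → ρ (f x) = some (j i) := by
  classical
  choose p hp using hM.ne
  refine ⟨{i | ∃ x, π x = some i ∧ ρ (f x) = none},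
    fun i => (ρ (f (p i))).getD (Classical.arbitrary Y), ?_, ?_⟩
  · refine le_trans ?_ hN.base
    have h1 : ∀ i : {i | ∃ x, π x = some i ∧ ρ (f x) = none}, ∃ x, π x = some i.1 ∧
        ρ (f x) = none := fun i => i.2
    choose x hx1 hx2 using h1
    refine Cardinal.mk_le_of_injective (f := fun i => (⟨f (x i), hx2 i⟩ : {y | ρ y = none})) ?_
    intro i i' h
    have h2 : f (x i) = f (x i') := congrArg Subtype.val h
    have h3 := hf h2
    have h4 := hx1 i
    rw [h3, hx1 i'] at h4
    exact Subtype.ext (Option.some.inj h4).symm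
  · intro i hi x hx
    have hnone : ∀ y, π y = some i → ∃ k, ρ (f y) = some k := by
      intro y hy
      cases h : ρ (f y) with
      | none => exact absurd ⟨y, hy, h⟩ hi
      | some k => exact ⟨k, rfl⟩
    have h1 : π x = some i ∧ ρ (f x) = ρ (f (p i)) := by
      have h2 := hM.con (p i) x i (hp i) hx
      clear hx
      induction h2 with
      | refl => exact ⟨hp i, rfl⟩
      | @tail b c _ hbc ih =>
        obtain ⟨i', hi'⟩ := Option.ne_none_iff_exists'.1 hbc.2.1
        have h3 : i = i' := by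
          by_contra hne
          exact hbc.2.2 (hM.un _ _ _ _ ih.1 hi' hne)
        subst h3
        refine ⟨hi', ?_⟩
        obtain ⟨k, hk⟩ := hnone b ih.1
        obtain ⟨k', hk'⟩ := hnone c hi'
        have h4 : k = k' := by
          by_contra hne
          exact hbc.2.2 ((hUV _ _).1 (hN.un _ _ _ _ hk hk' hne))
        rw [hk', ← h4, ← hk, ih.2]
    obtain ⟨k, hk⟩ := hnone (p i) (hp i)
    rw [h1.2]
    simp only [hk, Option.getD_some]

/-- A bijection maps all but few petals onto petals. -/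
theorem split [Nonempty X] [Nonempty Y] (h0 : ℵ₀ ≤ κ) (hM : Dec κ U π) (hN : Dec κ V ρ)
    (f : M ≃ N) (hUV : ∀ a b, V (f a) (f b) ↔ U a b) :
    ∃ (J : Set X) (J' : Set Y) (j : X → Y), #J ≤ κ ∧ #J' ≤ κ ∧ (∀ i ∉ J, j i ∉ J') ∧
      (∀ k ∉ J', ∃ i ∉ J, j i = k) ∧
      (∀ i ∉ J, ∀ x, π x = some i ↔ ρ (f x) = some (j i)) ∧
      ∀ x, (∀ i, π x = some i → i ∈ J) ↔ ∀ k, ρ (f x) = some k → k ∈ J' := by
  classical
  obtain ⟨Z0, j, hb, hj⟩ := half hM hN f f.injective hUV
  obtain ⟨Z0', j', hb', hj'⟩ := half hN hM f.symm f.symm.injective fun a b => by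
    rw [← hUV, f.apply_symm_apply, f.apply_symm_apply]
  choose p hp using hM.ne
  choose q hq using hN.ne
  let J : Set X := Z0 ∪ {i | i ∉ Z0 ∧ j i ∈ Z0'}
  have hJc : #J ≤ κ := by
    refine (Cardinal.mk_union_le _ _).trans ((add_le_add hb ?_).trans (Cardinal.add_eq_self h0).le)
    have h1 : #(⋃ k : Z0', {y | ρ y = some k.1} : Set N) ≤ κ := by
      refine (Cardinal.mk_iUnion_le _).trans ?_
      have h2 : (⨆ k : Z0', #{y | ρ y = some k.1}) ≤ κ := ciSup_le' fun k => hN.pet k.1
      exact (mul_le_mul' hb' h2).trans (Cardinal.mul_eq_self h0).le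
    refine le_trans ?_ h1
    refine Cardinal.mk_le_of_injective (f := fun i : {i | i ∉ Z0 ∧ j i ∈ Z0'} =>
      (⟨f (p i.1), Set.mem_iUnion.2 ⟨⟨j i.1, i.2.2⟩, hj i.1 i.2.1 _ (hp i.1)⟩⟩ :
        (⋃ k : Z0', {y | ρ y = some k.1} : Set N))) ?_
    intro i i' h
    have h2 : f (p i.1) = f (p i'.1) := congrArg Subtype.val h
    have h3 := f.injective h2
    have h4 := hp i.1
    rw [h3, hp i'.1] at h4
    exact Subtype.ext (Option.some.inj h4).symm
  have hmain : ∀ i ∉ J, ∀ x, π x = some i ↔ ρ (f x) = some (j i) := by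
    intro i hi x
    have hi1 : i ∉ Z0 := fun h => hi (Or.inl h)
    have hi2 : j i ∉ Z0' := fun h => hi (Or.inr ⟨hi1, h⟩)
    refine ⟨hj i hi1 x, fun h => ?_⟩
    have h1 : ∀ z, ρ (f z) = some (j i) → π z = some (j' (j i)) := by
      intro z hz
      have h2 := hj' (j i) hi2 (f z) hz
      rw [f.symm_apply_apply] at h2
      exact h2
    have h3 := h1 (p i) (hj i hi1 _ (hp i))
    rw [hp i] at h3
    rw [h1 x h, ← Option.some.inj h3]
  let J' : Set Y := {k | ¬ ∃ i ∉ J, j i = k}
  have hs5 : ∀ x, (∀ i, π x = some i → i ∈ J) ↔ ∀ k, ρ (f x) = some k → k ∈ J' := by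
    intro x
    constructor
    · rintro h k hk ⟨i, hi, rfl⟩
      exact hi (h i ((hmain i hi x).2 hk))
    · intro h i hi
      by_contra hiJ
      exact h (j i) ((hmain i hiJ x).1 hi) ⟨i, hiJ, rfl⟩
  refine ⟨J, J', j, hJc, ?_, fun i hi h => h ⟨i, hi, rfl⟩, fun k hk => ?_, hmain, hs5⟩
  · have h1 : #({x | π x = none} ∪ ⋃ i : J, {x | π x = some i.1} : Set M) ≤ κ := by
      refine (Cardinal.mk_union_le _ _).trans ((add_le_add hM.base ?_).trans
        (Cardinal.add_eq_self h0).le)
      refine (Cardinal.mk_iUnion_le _).trans ?_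
      have h2 : (⨆ i : J, #{x | π x = some i.1}) ≤ κ := ciSup_le' fun k => hM.pet k.1
      exact (mul_le_mul' hJc h2).trans (Cardinal.mul_eq_self h0).le
    refine le_trans ?_ h1
    have h3 : ∀ k : J', f.symm (q k.1) ∈
        ({x | π x = none} ∪ ⋃ i : J, {x | π x = some i.1} : Set M) := by
      intro k
      have h4 := (hs5 (f.symm (q k.1))).2 (by
        intro k' hk'
        rw [f.apply_symm_apply, hq] at hk'
        rw [← Option.some.inj hk']
        exact k.2)
      cases h : π (f.symm (q k.1)) with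
      | none => exact Or.inl h
      | some i => exact Or.inr (Set.mem_iUnion.2 ⟨⟨i, h4 i h⟩, h⟩)
    refine Cardinal.mk_le_of_injective (f := fun k : J' =>
      (⟨f.symm (q k.1), h3 k⟩ :
        ({x | π x = none} ∪ ⋃ i : J, {x | π x = some i.1} : Set M))) ?_
    intro k k' h
    have h5 : f.symm (q k.1) = f.symm (q k'.1) := congrArg Subtype.val h
    have h6 := f.symm.injective h5
    have h7 := hq k.1
    rw [h6, hq k'.1] at h7
    exact Subtype.ext (Option.some.inj h7).symm
  · by_contra hcon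
    exact hk hcon

end Pool.Agent.H87.CT
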