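import Pool.Agent.H87.CT.Cmp

set_option autoImplicit false

/-!
# There are no symbols of arity three or more; symmetry of the large models
-/

namespace Pool.Agent.H87.CT

open FirstOrder FirstOrder.Language Cardinal

variable {L : FirstOrder.Language.{0, 0}} {F : Set (C2 L)}

/-- tuples with at most two distinct entries -/
def Few {M : Type} {k : ℕ} (v : Fin k → M) : Prop := ∃ a b, ∀ i, v i = a ∨ v i = b

/-- change the relations on the tuples with three or more entries -/
@[reducible] def tw [L.IsRelational] (M : Type) [L.Structure M] (t : Prop) : L.Structure M where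
  funMap f _ := isEmptyElim f
  RelMap R v := (Few v ∧ Structure.RelMap R v) ∨ (¬ Few v ∧ t)

theorem sat_tw [L.IsRelational] (M : Type) [L.Structure M] (t : Prop) (χ : C2 L) : ∀ a b : M,
    @Sat2 L M (tw M t) χ a b ↔ Sat2 M χ a b := by
  induction χ with
  | eq => exact fun _ _ => Iff.rfl
  | rel R u =>
    intro a b
    have h : Few fun i => cond (u i) b a := ⟨a, b, fun i => by cases h : u i <;> simp [h]⟩
    exact ⟨fun h' => h'.elim (fun h' => h'.2) fun h' => absurd h h'.1, fun h' => Or.inl ⟨h, h'⟩⟩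
  | not χ ih => exact fun a b => not_congr (ih a b)
  | conj χ ih => exact fun a b => forall_congr' fun i => ih i a b
  | cnt n χ ih =>
    intro a b
    have h : {y | @Sat2 L M (tw M t) χ a y} = {y | Sat2 M χ a y} := by
      ext y
      exact ih a y
    change (n : ℕ∞) ≤ {y | @Sat2 L M (tw M t) χ a y}.encard ↔ (n : ℕ∞) ≤ _
    rw [h]
  | sw χ ih => exact fun a b => ih b a

theorem no_tern [L.IsRelational] {φ : C2 L} {μ : Cardinal.{0}} (hμ : ℵ₀ ≤ μ) (hcat : Cat2 φ μ)
    {M : Type} [L.Structure M] (hMc : #M = μ) (hM : Models2 M φ) :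
    ∀ k, Nonempty (L.Relations k) → k ≤ 2 := by
  rintro k ⟨R⟩
  by_contra hk
  push Not at hk
  have hinf : Infinite M := Cardinal.infinite_iff.2 (hMc ▸ hμ)
  let q := Infinite.natEmbedding M
  let v : Fin k → M := fun i => q i.1
  have hv : ∀ f : M → M, Function.Injective f → ¬ Few (f ∘ v) := by
    rintro f hf ⟨a, b, h⟩
    have h0 := h ⟨0, by omega⟩
    have h1 := h ⟨1, by omega⟩
    have h2 := h ⟨2, by omega⟩
    have hne : ∀ i j : ℕ, i ≠ j → f (q i) ≠ f (q j) := fun i j hij h' =>
      hij (q.injective (hf h'))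
    have h01 := hne 0 1 (by omega)
    have h02 := hne 0 2 (by omega)
    have h12 := hne 1 2 (by omega)
    change f (q 0) = a ∨ f (q 0) = b at h0
    change f (q 1) = a ∨ f (q 1) = b at h1
    change f (q 2) = a ∨ f (q 2) = b at h2
    rcases h0 with h0 | h0 <;> rcases h1 with h1 | h1 <;> rcases h2 with h2 | h2 <;>
      simp_all
  obtain ⟨f⟩ := @hcat M M (tw M True) (tw M False) hMc hMc
    (fun a b => (sat_tw M True φ a b).2 (hM a b)) (fun a b => (sat_tw M False φ a b).2 (hM a b))
  have h1 := @Language.Equiv.map_rel L M M (tw M True) (tw M False) f k R v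
  have h2 : @Structure.RelMap L M (tw M True) k R v := Or.inr ⟨hv id fun a b h => h, trivial⟩
  rcases h1.2 h2 with h3 | h3
  · exact hv _ (@Language.Equiv.toEquiv L M M (tw M True) (tw M False) f).injective h3.1
  · exact h3.2

/-- the map on the amalgam given by a permutation of the petals -/
def prm {B C I : Type} (σ : I → I) : B ⊕ (I × C) → B ⊕ (I × C)
  | Sum.inl b => Sum.inl b
  | Sum.inr p => Sum.inr (σ p.1, p.2)

section sym

variable (hF : Fg F) [L.IsRelational] (hL : ∀ k, Nonempty (L.Relations k) → k ≤ 2) {φ : C2 L}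
  (hφ : φ ∈ F) {μ : Cardinal.{0}} (hμ : 2 ^ (ℵ₀ : Cardinal.{0}) < μ) (hcat : Cat2 φ μ)

include hF hL hφ hμ hcat

theorem exists_sym {M : Type} [L.Structure M] (hM : Models2 M φ)
    (hMc : 2 ^ (ℵ₀ : Cardinal.{0}) < #M) : ∃ (B C I : Type) (e : B ⊕ (I × C) ≃ M),
      #B ≤ 2 ^ (ℵ₀ : Cardinal.{0}) ∧ #C ≤ 2 ^ (ℵ₀ : Cardinal.{0}) ∧
      ∀ (σ : Equiv.Perm I) (k : ℕ) (R : L.Relations k) (v : Fin k → B ⊕ (I × C)),
        Structure.RelMap R (fun i => e (prm σ (v i))) ↔ Structure.RelMap R fun i => e (v i) := by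
  classical
  obtain ⟨B, -, hB⟩ := exists_Base hF (∅ : Set M) (by simp) hMc
  obtain ⟨g, hg⟩ := exists_g hF.cnt hB
  obtain ⟨c, -, hc⟩ := Set.not_subset.1 fun h : (Set.univ : Set M) ⊆ B =>
    (not_lt.2 (((Cardinal.mk_univ.ge).trans (Cardinal.mk_le_mk_of_subset h)).trans hB.card)) hMc
  obtain ⟨I, _, hI, e, he⟩ := exists_rep hF hL hφ hμ hcat hM hMc hB hg hc
  have hok : AmOk F B (fun _ : I => cmp F B c) g :=
    amOk hB.good hg (fun i => cmp_good hF hL hφ hμ hcat hM hMc hB hc)
      fun i e he => cmp_notMem hc he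
  let w : B ⊕ (I × cmp F B c) ≃ Am B (fun _ : I => cmp F B c) g :=
    { toFun := Sum.elim Am.l fun p => .r p.1 p.2
      invFun := fun
        | .l m => Sum.inl m
        | .r i x => Sum.inr (i, x)
      left_inv := by rintro (m | ⟨i, x⟩) <;> rfl
      right_inv := by rintro (m | ⟨i, x⟩) <;> rfl }
  refine ⟨B, cmp F B c, I, w.trans e, hB.card, cmp_card hF hL hφ hμ hcat hM hMc hB c, ?_⟩
  intro σ k R v
  have hty : ∀ a b : B ⊕ (I × cmp F B c), ty F M (e (w (prm σ a))) (e (w (prm σ b))) =
      ty F M (e (w a)) (e (w b)) := by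
    intro a b
    rw [he, he]
    rcases a with m | ⟨i, x⟩ <;> rcases b with m' | ⟨j, y⟩
    · rfl
    · exact (am_lr hF hL hok m _ y).trans (am_lr hF hL hok m j y).symm
    · exact ty_swap hF ((am_lr hF hL hok m' _ x).trans (am_lr hF hL hok m' i x).symm)
    · by_cases hij : i = j
      · subst hij
        exact (am_rr hF hL hok _ x y).trans (am_rr hF hL hok i x y).symm
      · have hij' : σ i ≠ σ j := fun h => hij (σ.injective h)
        exact (am_dft hF hL hφ hμ hcat hM hMc hB hg hok hij' x y).trans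
          (am_dft hF hL hφ hμ hcat hM hMc hB hg hok hij x y).symm
  have hne : Nonempty (B ⊕ (I × cmp F B c)) := ⟨(w.trans e).symm c⟩
  obtain ⟨a, b, u, rfl⟩ := tup (hL k ⟨R⟩) v
  have h1 := ty_iff.1 (hty a b) (.rel R u) (hF.rel R u)
  have e1 : (fun i => (w.trans e) (prm σ (cond (u i) b a))) =
      fun i => cond (u i) (e (w (prm σ b))) (e (w (prm σ a))) := by
    funext i
    cases u i <;> rfl
  have e2 : (fun i => (w.trans e) (cond (u i) b a)) =
      fun i => cond (u i) (e (w b)) (e (w a)) := by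
    funext i
    cases u i <;> rfl
  rw [e1, e2]
  exact h1

end sym

end Pool.Agent.H87.CT
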