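import Pool.Agent.H87.CT.Comp
import Pool.Agent.H87.CT.Split

set_option autoImplicit false

/-!
# Amalgams of components
-/

namespace Pool.Agent.H87.CT

open FirstOrder FirstOrder.Language Cardinal

variable {L : FirstOrder.Language.{0, 0}} {F : Set (C2 L)} {M : Type} [L.Structure M]

theorem big_congr {x y : M} (h : ty F M x x = ty F M y y) : Big F x ↔ Big F y := by
  unfold Big
  rw [h]

/-- the petal of an element -/
def pi {B : Set M} {X : Type} {P : X → Set M} {g : M → M → M × M} : Am B P g → Option X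
  | .l _ => none
  | .r i _ => some i

section tmpl

variable (hF : Fg F) [L.IsRelational] (hL : ∀ k, Nonempty (L.Relations k) → k ≤ 2) {φ : C2 L}
  (hφ : φ ∈ F) {μ : Cardinal.{0}} (hμ : 2 ^ (ℵ₀ : Cardinal.{0}) < μ) (hcat : Cat2 φ μ)
  (hM : Models2 M φ) (hMc : 2 ^ (ℵ₀ : Cardinal.{0}) < #M) {B : Set M} (hB : Base F B)
  {g : M → M → M × M} (hg : GOk F B g)

/-- the type of an element of the base and an element of a petal -/
theorem am_lr {X : Type} [LinearOrder X] {P : X → Set M} (hF : Fg F)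
    (hL : ∀ k, Nonempty (L.Relations k) → k ≤ 2) (hok : AmOk F B P g) (m : B) (i : X)
    (e : P i) : ty F (Am B P g) (.l m) (.r i e) = ty F M m.1 e.1 := am_ty hok hF hL _ _

theorem am_ll {X : Type} [LinearOrder X] {P : X → Set M} (hF : Fg F)
    (hL : ∀ k, Nonempty (L.Relations k) → k ≤ 2) (hok : AmOk F B P g) (m m' : B) :
    ty F (Am B P g) (.l m) (.l m') = ty F M m.1 m'.1 := am_ty hok hF hL _ _

theorem am_rr {X : Type} [LinearOrder X] {P : X → Set M} (hF : Fg F)
    (hL : ∀ k, Nonempty (L.Relations k) → k ≤ 2) (hok : AmOk F B P g) (i : X) (e e' : P i) :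
    ty F (Am B P g) (.r i e) (.r i e') = ty F M e.1 e'.1 := by
  rw [am_ty hok hF hL, rr_rr]

include hF hL hφ hμ hcat hM hMc hB hg

/-- the type of elements of different petals -/
theorem am_dft {X : Type} [LinearOrder X] {P : X → Set M} (hok : AmOk F B P g) {i j : X}
    (h : i ≠ j) (e : P i) (e' : P j) : ty F (Am B P g) (.r i e) (.r j e') =
      ty F M (g e.1 e'.1).1 (g e.1 e'.1).2 := by
  have he := hok.dis _ _ e.2
  have he' := hok.dis _ _ e'.2
  rw [am_ty hok hF hL]
  rcases lt_or_gt_of_ne h with h1 | h1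
  · rw [rr_lt h1]
  · rw [rr_gt h1]
    refine uniq hF hL hφ hμ hcat hM hMc ?_ ?_ ?_ ?_ ?_ ?_
    · exact (big_congr (hg.g2 _ _ he' he)).2 (hB.big _ he)
    · exact (big_congr (hg.g1 _ _ he' he)).2 (hB.big _ he')
    · exact (hg.g2 _ _ he' he).trans (hg.g1 _ _ he he').symm
    · exact (hg.g1 _ _ he' he).trans (hg.g2 _ _ he he').symm
    · exact (hg.un _ _ he' he).symm
    · exact hg.un _ _ he he'

omit hg in
/-- amalgams of components are decomposed -/
theorem am_dec {X : Type} [LinearOrder X] {c : X → M}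
    (hok : AmOk F B (fun i => cmp F B (c i)) g) :
    Dec (2 ^ (ℵ₀ : Cardinal.{0})) (Un F) (pi : Am B (fun i => cmp F B (c i)) g → Option X) := by
  refine ⟨fun i => ⟨.r i ⟨c i, self_cmp _ _⟩, rfl⟩, ?_, fun i => ?_, ?_, ?_⟩
  · refine le_trans ?_ hB.card
    have h : {x : Am B (fun i => cmp F B (c i)) g | pi x = none} ⊆ Set.range Am.l := by
      rintro (m | ⟨i, e⟩) hx
      · exact ⟨m, rfl⟩
      · exact absurd hx (by simp [pi])
    exact (Cardinal.mk_le_mk_of_subset h).trans Cardinal.mk_range_le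
  · refine le_trans ?_ (cmp_card hF hL hφ hμ hcat hM hMc hB (c i))
    have h : {x : Am B (fun i => cmp F B (c i)) g | pi x = some i} ⊆ Set.range (Am.r i) := by
      rintro (m | ⟨j, e⟩) hx
      · exact absurd hx (by simp [pi])
      · obtain rfl : j = i := Option.some.inj hx
        exact ⟨e, rfl⟩
    exact (Cardinal.mk_le_mk_of_subset h).trans Cardinal.mk_range_le
  · rintro (m | ⟨i', e⟩) (m' | ⟨j', e'⟩) i j hx hy hij
    · exact absurd hx (by simp [pi])
    · exact absurd hx (by simp [pi])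
    · exact absurd hy (by simp [pi])
    · obtain rfl : i' = i := Option.some.inj hx
      obtain rfl : j' = j := Option.some.inj hy
      exact (un_congr hF (am_ty hok hF hL _ _)).2 (rr_un hok hij e e')
  · rintro (m | ⟨i', e⟩) (m' | ⟨j', e'⟩) i hx hy
    · exact absurd hx (by simp [pi])
    · exact absurd hx (by simp [pi])
    · exact absurd hy (by simp [pi])
    · obtain rfl : i' = i := Option.some.inj hx
      obtain rfl : j' = i' := Option.some.inj hy
      have h1 : e'.1 ∈ cmp F B e.1 := cmp_trans (cmp_symm e.2) e'.2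
      have h2 : ∀ b, Relation.ReflTransGen (lnk F B) e.1 b → ∀ hb : b ∈ cmp F B (c j'),
          Relation.ReflTransGen (fun a b : Am B (fun i => cmp F B (c i)) g =>
            pi a ≠ none ∧ pi b ≠ none ∧ ¬ Un F a b) (.r j' e) (.r j' ⟨b, hb⟩) := by
        intro b hb
        induction hb with
        | refl => exact fun _ => Relation.ReflTransGen.refl
        | @tail b d hab hbd ih =>
          intro hd
          have hb : b ∈ cmp F B (c j') := cmp_trans e.2 hab
          refine Relation.ReflTransGen.tail (ih hb) ⟨by simp [pi], by simp [pi], fun h => ?_⟩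
          refine hbd.2.2 ((un_congr hF ?_).1 h)
          exact am_rr hF hL hok j' ⟨b, hb⟩ ⟨d, hd⟩
      exact h2 e'.1 h1 e'.2

/-- the petals can be exchanged -/
theorem am_swp {X : Type} [LinearOrder X] {C : Set M} (hok : AmOk F B (fun _ : X => C) g)
    {i i' : X} (a : Am B (fun _ : X => C) g) (hi : pi a ≠ some i) (hi' : pi a ≠ some i')
    (e : C) : ty F _ a (.r i e) = ty F _ a (.r i' e) := by
  rcases a with m | ⟨j, d⟩
  · rw [am_lr hF hL hok, am_lr hF hL hok]
  · have h1 : j ≠ i := fun h => hi (congrArg some h)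
    have h2 : j ≠ i' := fun h => hi' (congrArg some h)
    rw [am_dft hF hL hφ hμ hcat hM hMc hB hg hok h1, am_dft hF hL hφ hμ hcat hM hMc hB hg hok h2]

omit hg in
/-- any two components are isomorphic over the base -/
theorem cmp_iso {x x' : M} (hx : x ∉ B) (hx' : x' ∉ B) :
    ∃ h : cmp F B x ≃ cmp F B x', (∀ b ∈ B, ∀ c, ty F M b (h c).1 = ty F M b c.1) ∧
      ∀ c d, ty F M (h c).1 (h d).1 = ty F M c.1 d.1 := by
  classical
  have hμ0 : ℵ₀ ≤ μ := (c_pos.trans hμ).le
  obtain ⟨g, hg⟩ := exists_g hF.cnt hB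
  let X := μ.ord.ToType
  have hX : #X = μ := Cardinal.mk_ord_toType μ
  have hXne : Nonempty X := by
    rw [← Cardinal.mk_ne_zero_iff, hX]
    exact (Cardinal.aleph0_pos.trans_le hμ0).ne'
  obtain ⟨w⟩ : Nonempty (X ≃ X × Bool) := by
    rw [← Cardinal.eq, Cardinal.mk_prod, hX, Cardinal.lift_id, Cardinal.lift_id,
      Cardinal.mk_bool]
    exact (Cardinal.mul_eq_left hμ0 ((Cardinal.natCast_lt_aleph0 (n := 2)).le.trans hμ0)
      two_ne_zero).symm
  let c₁ : X → M := fun _ => x
  let c₂ : X → M := fun i => if (w i).2 then x else x'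
  have hc₂ : ∀ i, c₂ i ∉ B := by
    intro i
    simp only [c₂]
    split
    · exact hx
    · exact hx'
  have hcard : ∀ c : X → M, #(Am B (fun i => cmp F B (c i)) g) = μ := fun c =>
    am_card hμ0 hX (hB.card.trans hμ.le)
      (fun i => (cmp_card hF hL hφ hμ hcat hM hMc hB _).trans hμ.le) fun i => ⟨_, self_cmp _ _⟩
  have hok : ∀ c : X → M, (∀ i, c i ∉ B) → AmOk F B (fun i => cmp F B (c i)) g := fun c hc =>
    amOk hB.good hg (fun i => cmp_good hF hL hφ hμ hcat hM hMc hB (hc i))
      fun i e he => cmp_notMem (hc i) he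
  have hok₁ := hok c₁ fun _ => hx
  have hok₂ := hok c₂ hc₂
  obtain ⟨f⟩ := hcat (Am B (fun i => cmp F B (c₁ i)) g) (Am B (fun i => cmp F B (c₂ i)) g)
    (hcard _) (hcard _) (am_models hφ hF hL hM hok₁) (am_models hφ hF hL hM hok₂)
  obtain ⟨J, J', j, hJ, hJ', hj1, hj2, hj3, hj4⟩ := split c_pos.le
    (am_dec hF hL hφ hμ hcat hM hMc hB hok₁)
    (am_dec hF hL hφ hμ hcat hM hMc hB hok₂) f.toEquiv
    fun a b => un_congr hF (ty_equiv f a b)
  have hex : ∀ t : Bool, ∃ k ∉ J', (w k).2 = t := by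
    intro t
    by_contra hcon
    push Not at hcon
    have h1 : ∀ y : X, w.symm (y, t) ∈ J' := by
      intro y
      by_contra hy
      exact hcon _ hy (by rw [w.apply_symm_apply])
    have h2 : #X ≤ #J' := by
      refine Cardinal.mk_le_of_injective (f := fun y : X => (⟨w.symm (y, t), h1 y⟩ : J')) ?_
      intro y y' h
      have h3 := w.symm.injective (congrArg Subtype.val h)
      exact (Prod.ext_iff.1 h3).1
    rw [hX] at h2
    exact (h2.trans hJ').not_gt hμ
  obtain ⟨k, hk, hwk⟩ := hex true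
  obtain ⟨k', hk', hwk'⟩ := hex false
  obtain ⟨i, hi, rfl⟩ := hj2 k hk
  obtain ⟨i', hi', rfl⟩ := hj2 k' hk'
  have hP : c₂ (j i) = x := if_pos hwk
  have hP' : c₂ (j i') = x' := if_neg (by rw [hwk']; exact Bool.false_ne_true)
  have hPm : ∀ z, z ∈ cmp F B (c₂ (j i)) → z ∈ cmp F B x := by
    rw [hP]
    exact fun z h => h
  have hPm' : ∀ z, z ∈ cmp F B (c₂ (j i')) → z ∈ cmp F B x' := by
    rw [hP']
    exact fun z h => h
  have hα : ∀ c : cmp F B x, ∃ c1 : cmp F B x, f (.r i c1) =
      .r (j i) ⟨c.1, by rw [hP]; exact c.2⟩ := by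
    intro c
    have h1 : pi (f.symm (.r (j i) ⟨c.1, by rw [hP]; exact c.2⟩)) = some i := by
      refine (hj3 i hi _).2 ?_
      change pi (f (f.symm _)) = _
      rw [f.apply_symm_apply]
      rfl
    cases h2 : f.symm (.r (j i) ⟨c.1, by rw [hP]; exact c.2⟩) with
    | l m =>
      rw [h2] at h1
      exact absurd h1 (by simp [pi])
    | r i2 c1 =>
      rw [h2] at h1
      obtain rfl : i2 = i := Option.some.inj h1
      refine ⟨c1, ?_⟩
      rw [← h2, f.apply_symm_apply]
  have hα' : ∀ c1 : cmp F B x, ∃ c : cmp F B x, f (.r i c1) =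
      .r (j i) ⟨c.1, by rw [hP]; exact c.2⟩ := by
    intro c1
    have h1 : pi (f (.r i c1)) = some (j i) := (hj3 i hi _).1 rfl
    cases h2 : f (.r i c1) with
    | l m =>
      rw [h2] at h1
      exact absurd h1 (by simp [pi])
    | r i2 c =>
      rw [h2] at h1
      obtain rfl : i2 = j i := Option.some.inj h1
      exact ⟨⟨c.1, hPm c.1 c.2⟩, rfl⟩
  have hβ : ∀ c1 : cmp F B x, ∃ c2 : cmp F B x', f (.r i' c1) =
      .r (j i') ⟨c2.1, by rw [hP']; exact c2.2⟩ := by
    intro c1
    have h1 : pi (f (.r i' c1)) = some (j i') := (hj3 i' hi' _).1 rfl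
    cases h2 : f (.r i' c1) with
    | l m =>
      rw [h2] at h1
      exact absurd h1 (by simp [pi])
    | r i2 c =>
      rw [h2] at h1
      obtain rfl : i2 = j i' := Option.some.inj h1
      exact ⟨⟨c.1, hPm' c.1 c.2⟩, rfl⟩
  have hβ' : ∀ c : cmp F B x', ∃ c1 : cmp F B x, f (.r i' c1) =
      .r (j i') ⟨c.1, by rw [hP']; exact c.2⟩ := by
    intro c
    have h1 : pi (f.symm (.r (j i') ⟨c.1, by rw [hP']; exact c.2⟩)) = some i' := by
      refine (hj3 i' hi' _).2 ?_
      change pi (f (f.symm _)) = _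
      rw [f.apply_symm_apply]
      rfl
    cases h2 : f.symm (.r (j i') ⟨c.1, by rw [hP']; exact c.2⟩) with
    | l m =>
      rw [h2] at h1
      exact absurd h1 (by simp [pi])
    | r i2 c1 =>
      rw [h2] at h1
      obtain rfl : i2 = i' := Option.some.inj h1
      refine ⟨c1, ?_⟩
      rw [← h2, f.apply_symm_apply]
  choose α hα using hα
  choose β hβ using hβ
  have hbij : Function.Bijective fun c => β (α c) := by
    constructor
    · intro c c' h
      have h0 : β (α c) = β (α c') := h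
      have h1 : f (.r i' (α c)) = f (.r i' (α c')) := by rw [hβ, hβ, h0]
      have h2 := eq_of_heq (Am.r.inj (f.injective h1)).2
      have h3 := hα c
      rw [h2, hα c'] at h3
      have h4 := eq_of_heq (Am.r.inj h3).2
      have h5 := congrArg Subtype.val h4
      exact Subtype.ext h5.symm
    · intro d
      obtain ⟨c1, hc1⟩ := hβ' d
      obtain ⟨c, hc⟩ := hα' c1
      refine ⟨c, ?_⟩
      have h1 : α c = c1 := eq_of_heq (Am.r.inj (f.injective ((hα c).trans hc.symm))).2
      change β (α c) = d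
      rw [h1]
      have h2 := (hβ c1).symm.trans hc1
      have h3 := congrArg Subtype.val (eq_of_heq (Am.r.inj h2).2)
      exact Subtype.ext h3
  refine ⟨Equiv.ofBijective _ hbij, fun b hb c => ?_, fun c d => ?_⟩
  · change ty F M b (β (α c)).1 = ty F M b c.1
    have h1 : ∀ i3, pi (f.symm (.l ⟨b, hb⟩)) = some i3 → i3 ∈ J := by
      refine (hj4 _).2 ?_
      intro k' hk'
      change pi (f (f.symm _)) = _ at hk'
      rw [f.apply_symm_apply] at hk'
      exact absurd hk' (by simp [pi])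
    have h2 := am_lr hF hL hok₂ ⟨b, hb⟩ (j i) ⟨c.1, by rw [hP]; exact c.2⟩
    have h3 := am_lr hF hL hok₂ ⟨b, hb⟩ (j i') ⟨(β (α c)).1, by rw [hP']; exact (β (α c)).2⟩
    have h4 := am_swp hF hL hφ hμ hcat hM hMc hB hg hok₁ (i := i) (i' := i')
      (f.symm (.l ⟨b, hb⟩)) (fun h => hi (h1 _ h)) (fun h => hi' (h1 _ h)) (α c)
    have h5 := ty_equiv (F := F) f (f.symm (.l ⟨b, hb⟩)) (.r i (α c))
    have h6 := ty_equiv (F := F) f (f.symm (.l ⟨b, hb⟩)) (.r i' (α c))
    rw [f.apply_symm_apply, hα] at h5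
    rw [f.apply_symm_apply, hβ] at h6
    exact (h3.symm.trans (h6.trans (h4.symm.trans (h5.symm.trans h2))))
  · change ty F M (β (α c)).1 (β (α d)).1 = ty F M c.1 d.1
    have h1 := am_rr hF hL hok₂ (j i') ⟨(β (α c)).1, by rw [hP']; exact (β (α c)).2⟩
      ⟨(β (α d)).1, by rw [hP']; exact (β (α d)).2⟩
    have h2 := ty_equiv (F := F) f (.r i' (α c)) (.r i' (α d))
    have h3 := ty_equiv (F := F) f (.r i (α c)) (.r i (α d))
    have h4 := am_rr hF hL hok₂ (j i) ⟨c.1, by rw [hP]; exact c.2⟩ ⟨d.1, by rw [hP]; exact d.2⟩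
    rw [hβ, hβ, am_rr hF hL hok₁] at h2
    rw [hα, hα, am_rr hF hL hok₁] at h3
    exact h1.symm.trans (h2.trans (h3.symm.trans h4))

end tmpl

end Pool.Agent.H87.CT
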