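import Pool.Agent.H87.CT.Frag

set_option autoImplicit false

/-!
# Types of pairs
-/

namespace Pool.Agent.H87.CT

open FirstOrder FirstOrder.Language Cardinal

variable {L : FirstOrder.Language.{0, 0}} {F : Set (C2 L)}

/-- the type of a pair -/
def ty (F : Set (C2 L)) (M : Type) [L.Structure M] (a b : M) : Set F := {χ | Sat2 M χ.1 a b}

section

variable {M N : Type} [L.Structure M] [L.Structure N]

theorem ty_iff {a b : M} {a' b' : N} :
    ty F M a b = ty F N a' b' ↔ ∀ χ ∈ F, (Sat2 M χ a b ↔ Sat2 N χ a' b') := by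
  constructor
  · intro h χ hχ
    exact Set.ext_iff.1 h ⟨χ, hχ⟩
  · intro h
    ext χ
    exact h χ.1 χ.2

/-- the type of the inverse pair -/
def sg (hF : Fg F) (p : Set F) : Set F := {χ | (⟨.sw χ.1, hF.sws χ.2⟩ : F) ∈ p}

theorem sg_ty (hF : Fg F) (a b : M) : sg hF (ty F M a b) = ty F M b a := rfl

theorem ty_swap (hF : Fg F) {a b : M} {a' b' : N} (h : ty F M a b = ty F N a' b') :
    ty F M b a = ty F N b' a' := by
  rw [← sg_ty hF, h, sg_ty hF]

theorem encard_eq (hF : Fg F) {a b : M} {a' b' : N} (h : ty F M a b = ty F N a' b') {χ : C2 L}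
    (hχ : χ ∈ F) : {y | Sat2 M χ a y}.encard = {y | Sat2 N χ a' y}.encard := by
  have h1 : ∀ n : ℕ, ((n : ℕ∞) ≤ {y | Sat2 M χ a y}.encard ↔
      (n : ℕ∞) ≤ {y | Sat2 N χ a' y}.encard) := fun n =>
    ty_iff.1 h (.cnt n χ) (hF.cnts hχ n)
  refine le_antisymm ?_ ?_
  · exact ENat.forall_natCast_le_iff_le.1 fun n hn => (h1 n).1 hn
  · exact ENat.forall_natCast_le_iff_le.1 fun n hn => (h1 n).2 hn

theorem sat_equiv (f : M ≃[L] N) (χ : C2 L) : ∀ a b : M,
    Sat2 N χ (f a) (f b) ↔ Sat2 M χ a b := by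
  induction χ with
  | eq => exact fun a b => f.injective.eq_iff
  | rel R u =>
    intro a b
    have h := f.map_rel R fun i => cond (u i) b a
    have e : (f ∘ fun i => cond (u i) b a) = fun i => cond (u i) (f b) (f a) := by
      funext i
      cases h : u i <;> simp [h]
    rw [e] at h
    exact h
  | not χ ih => exact fun a b => not_congr (ih a b)
  | conj χ ih => exact fun a b => forall_congr' fun i => ih i a b
  | cnt n χ ih =>
    intro a b
    have h : {y | Sat2 N χ (f a) y} = f '' {y | Sat2 M χ a y} := by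
      ext y
      constructor
      · intro hy
        refine ⟨f.symm y, ?_, f.apply_symm_apply y⟩
        refine (ih a (f.symm y)).1 ?_
        rw [f.apply_symm_apply]
        exact hy
      · rintro ⟨z, hz, rfl⟩
        exact (ih a z).2 hz
    change (n : ℕ∞) ≤ {y | Sat2 N χ (f a) y}.encard ↔ _
    rw [h, f.injective.encard_image]
    exact Iff.rfl
  | sw χ ih => exact fun a b => ih b a

theorem ty_equiv (f : M ≃[L] N) (a b : M) : ty F N (f a) (f b) = ty F M a b :=
  ty_iff.2 fun χ _ => sat_equiv f χ a b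

/-- a structure whose pairs are represented by pairs of `M` -/
theorem rl (hF : Fg F) (ρ : N → M) (r : N → N → M × M)
    (h1 : ∀ (a b : N) {k : ℕ} (R : L.Relations k) (u : Fin k → Bool),
      Sat2 N (.rel R u) a b ↔ Sat2 M (.rel R u) (r a b).1 (r a b).2)
    (h1' : ∀ a b, a = b ↔ (r a b).1 = (r a b).2)
    (h2 : ∀ a b, ty F M (r b a).1 (r b a).2 = ty F M (r a b).2 (r a b).1)
    (h3 : ∀ a b, ty F M (r a b).1 (r a b).1 = ty F M (ρ a) (ρ a))
    (h4 : ∀ a, ∀ χ ∈ F, {b | Sat2 M χ (r a b).1 (r a b).2}.encard = {y | Sat2 M χ (ρ a) y}.encard)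
    (χ : C2 L) : χ ∈ F → ∀ a b, Sat2 N χ a b ↔ Sat2 M χ (r a b).1 (r a b).2 := by
  induction χ with
  | eq => exact fun _ a b => h1' a b
  | rel R u => exact fun _ a b => h1 a b R u
  | not χ ih => exact fun h a b => not_congr (ih (hF.not' h) a b)
  | conj χ ih => exact fun h a b => forall_congr' fun i => ih i (hF.conj' h i) a b
  | cnt n χ ih =>
    intro h a b
    have hχ := hF.cnt' h
    have e1 : {y | Sat2 N χ a y} = {y | Sat2 M χ (r a y).1 (r a y).2} := by
      ext y
      exact ih hχ a y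
    have e2 := encard_eq hF (h3 a b) hχ
    change (n : ℕ∞) ≤ {y | Sat2 N χ a y}.encard ↔ (n : ℕ∞) ≤ {y | Sat2 M χ (r a b).1 y}.encard
    rw [e1, h4 a χ hχ, e2]
  | sw χ ih =>
    intro h a b
    have hχ := hF.sw' h
    exact (ih hχ b a).trans (ty_iff.1 (h2 a b) χ hχ)

/-- tuples of length at most two -/
theorem tup [Nonempty M] {k : ℕ} (hk : k ≤ 2) (t : Fin k → M) :
    ∃ (a b : M) (u : Fin k → Bool), t = fun i => cond (u i) b a := by
  match k, hk, t with
  | 0, _, t =>
    obtain ⟨x⟩ := ‹Nonempty M›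
    exact ⟨x, x, fun _ => false, funext fun i => i.elim0⟩
  | 1, _, t =>
    refine ⟨t 0, t 0, fun _ => false, funext fun i => ?_⟩
    rw [Subsingleton.elim i 0]
    rfl
  | 2, _, t =>
    refine ⟨t 0, t 1, fun i => decide (i = 1), funext fun i => ?_⟩
    match i with
    | 0 => rfl
    | 1 => rfl

theorem iso_of_ty (hF : Fg F) [L.IsRelational] (hL : ∀ k, Nonempty (L.Relations k) → k ≤ 2)
    [Nonempty M] (e : M ≃ N) (h : ∀ a b, ty F N (e a) (e b) = ty F M a b) :
    Nonempty (M ≃[L] N) := by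
  refine ⟨⟨e, fun f => isEmptyElim f, fun {k} R t => ?_⟩⟩
  obtain ⟨a, b, u, rfl⟩ := tup (hL k ⟨R⟩) t
  have h1 := ty_iff.1 (h a b) (.rel R u) (hF.rel R u)
  have e1 : (e ∘ fun i => cond (u i) b a) = fun i => cond (u i) (e b) (e a) := by
    funext i
    cases h : u i <;> simp [h]
  exact (iff_of_eq (congrArg (Structure.RelMap R) e1)).trans h1

end

end Pool.Agent.H87.CT
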